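import Pool.Agent.H92.EX.Targets

/-!
# MP_34b97f_an: complete multiplicativity of `cm`
-/

open MeasureTheory ProbabilityTheory Filter Topology Finset

namespace Pool.Agent.H92.EX

open Pool.Agent.H89.MT

theorem par_eq (x : ℕ → Bool) {n : ℕ} {S : Finset ℕ} (hS : n.primeFactors ⊆ S) :
    par x n = ∑ p ∈ S, if x (Nat.count Nat.Prime p) then n.factorization p else 0 := by
  unfold par
  apply Finset.sum_subset hS
  intro p _ hp
  split_ifs
  · rw [← Nat.support_factorization, Finsupp.notMem_support_iff] at hp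
    exact hp
  · rfl

theorem par_mul (x : ℕ → Bool) {m n : ℕ} (hm : 0 < m) (hn : 0 < n) :
    par x (m * n) = par x m + par x n := by
  classical
  have h1 : (m * n).primeFactors = m.primeFactors ∪ n.primeFactors :=
    Nat.primeFactors_mul hm.ne' hn.ne'
  rw [par_eq x (n := m * n) (S := m.primeFactors ∪ n.primeFactors) h1.le,
    par_eq x (n := m) (S := m.primeFactors ∪ n.primeFactors) Finset.subset_union_left,
    par_eq x (n := n) (S := m.primeFactors ∪ n.primeFactors) Finset.subset_union_right,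
    ← Finset.sum_add_distrib]
  refine Finset.sum_congr rfl fun p _ => ?_
  split_ifs
  · rw [Nat.factorization_mul hm.ne' hn.ne']
    rfl
  · rfl

theorem cm_eq (x : ℕ → Bool) (n : ℕ) : (cm x n : ℝ) = (-1) ^ par x n := by
  unfold cm
  split_ifs with h
  · rw [h.neg_one_pow]
    rfl
  · rw [(Nat.not_even_iff_odd.1 h).neg_one_pow]
    rfl

theorem cm_mul (x : ℕ → Bool) {m n : ℕ} (hm : 0 < m) (hn : 0 < n) :
    (cm x (m * n) : ℝ) = cm x m * cm x n := by
  rw [cm_eq, cm_eq, cm_eq, par_mul x hm hn, pow_add]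

theorem cm_one (x : ℕ → Bool) : (cm x 1 : ℝ) = 1 := by
  rw [cm_eq]
  simp [par]

theorem abs_cm' (x : ℕ → Bool) (n : ℕ) : |(cm x n : ℝ)| = 1 := by
  rw [cm_eq]
  exact abs_neg_one_pow _

theorem cm_nth (x : ℕ → Bool) (j : ℕ) : (cm x (Nat.nth Nat.Prime j) : ℝ) = sg (x j) := by
  have hp : (Nat.nth Nat.Prime j).Prime := Nat.prime_nth_prime j
  have h1 : par x (Nat.nth Nat.Prime j) = if x j then 1 else 0 := by
    unfold par
    rw [hp.primeFactors, Finset.sum_singleton, Nat.count_nth_of_infinite Nat.infinite_setOf_prime,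
      hp.factorization_self]
  rw [cm_eq, h1]
  cases x j <;> simp [sg]

theorem pf_CM : T_CM := fun x =>
  ⟨fun _ _ hm hn => cm_mul x hm hn, cm_one x, abs_cm' x, cm_nth x⟩

theorem cm_prod (x : ℕ → Bool) (H : Finset ℕ) (n : ℕ) (hn : 0 < n) :
    (cm x (PP H n) : ℝ) = corr (cm x) H n := by
  classical
  unfold PP corr
  induction H using Finset.induction_on with
  | empty => simpa using cm_one x
  | insert a H ha ih =>
    rw [Finset.prod_insert ha, Finset.prod_insert ha,
      cm_mul x (by omega) (Finset.prod_pos fun h _ => by omega), ih]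

end Pool.Agent.H92.EX
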