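import Pool.Agent.H92.EX.XYB

/-!
# MP_34b97f_an: a large correlation forces a large block sum
-/

open MeasureTheory ProbabilityTheory Filter Topology Finset

namespace Pool.Agent.H92.EX

open Pool.Agent.H89.MT

theorem block_union (f : ℕ → ℝ) (a m : ℕ) (h : a ≤ m) :
    ∑ j ∈ Ico (2 ^ a) (2 ^ m), f j = ∑ i ∈ Ico a m, ∑ j ∈ Ico (2 ^ i) (2 ^ (i + 1)), f j := by
  induction m, h using Nat.le_induction with
  | base => simp
  | succ m hm ih =>
    rw [Finset.sum_Ico_succ_top hm, ← ih,
      Finset.sum_Ico_consecutive f (Nat.pow_le_pow_right two_pos hm)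
        (Nat.pow_le_pow_right two_pos (Nat.le_succ m))]

theorem pf_BLK (hDEC : T_DEC) (hYB : T_YB) (hCHB : T_CHB) : T_BLK := by
  classical
  intro H hH ε hε
  obtain ⟨CD, hCD, hdec⟩ := hDEC H hH
  obtain ⟨CY, hCY, hyb⟩ := hYB H
  obtain ⟨⟨c, hc, hlow⟩, ⟨CL, hCL, hup⟩⟩ := hCHB
  set A : ℕ := H.sup id with hA
  have hl2 : 0 < Real.log 2 := Real.log_pos (by norm_num)
  have hl2' : Real.log 2 ≤ 1 := by
    have := Real.log_two_lt_d9
    linarith
  set C : ℝ := 2 * CY / (c * Real.log 2) with hC
  have hC0 : 0 < C := by positivity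
  obtain ⟨K, hK1, hK⟩ : ∃ K : ℕ, 1 ≤ K ∧ 8 * CD * CL / ε ≤ K := by
    refine ⟨⌈8 * CD * CL / ε⌉₊ + 1, by omega, ?_⟩
    push_cast
    have := Nat.le_ceil (8 * CD * CL / ε)
    linarith
  have hK0 : (0 : ℝ) < K := by
    have : 0 < K := hK1
    exact_mod_cast this
  set θ : ℝ := ε / (8 * K * C) with hθ
  have hθ0 : 0 < θ := by positivity
  -- conditions for large `N`
  let i₀ : ℕ → ℕ := fun N => Nat.clog 2 N / K + 1
  have hi₀ : ∀ N, Nat.clog 2 N ≤ K * i₀ N := by
    intro N
    have h1 := Nat.div_add_mod (Nat.clog 2 N) K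
    have h2 := Nat.mod_lt (Nat.clog 2 N) (show 0 < K by omega)
    show Nat.clog 2 N ≤ K * (Nat.clog 2 N / K + 1)
    rw [mul_add, mul_one]
    omega
  have hNpow : ∀ N i, i₀ N ≤ i → N ≤ 2 ^ (K * i) := by
    intro N i hi
    refine (Nat.le_pow_clog one_lt_two N).trans (Nat.pow_le_pow_right two_pos ?_)
    exact (hi₀ N).trans (Nat.mul_le_mul_left K hi)
  have hlogt : Tendsto (fun N : ℕ => Real.log N) atTop atTop :=
    Real.tendsto_log_atTop.comp tendsto_natCast_atTop_atTop
  have hev1 : ∀ᶠ N : ℕ in atTop, CD * (1 + 4 * CL) / Real.log N < ε / 8 :=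
    (hlogt.const_div_atTop _).eventually (gt_mem_nhds (by positivity))
  have hi₀t : Tendsto i₀ atTop atTop := by
    rw [tendsto_atTop]
    intro b
    filter_upwards [eventually_ge_atTop (2 ^ (K * b) + 1)] with N hN
    by_contra hcon
    rw [not_le] at hcon
    have h1 := hNpow N b hcon.le
    omega
  have hev2 : ∀ᶠ N : ℕ in atTop, CD * (1 / (2 : ℝ) ^ i₀ N) < ε / 8 := by
    have h1 : Tendsto (fun N => CD * (1 / (2 : ℝ) ^ i₀ N)) atTop (𝓝 (CD * 0)) := by
      refine Tendsto.const_mul _ ?_
      have h2 : Tendsto (fun n : ℕ => 1 / (2 : ℝ) ^ n) atTop (𝓝 0) := by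
        have h3 := (tendsto_pow_atTop_atTop_of_one_lt (one_lt_two (α := ℝ))).inv_tendsto_atTop
        refine h3.congr fun n => ?_
        rw [one_div]
        rfl
      exact h2.comp hi₀t
    rw [mul_zero] at h1
    exact h1.eventually (gt_mem_nhds (by positivity))
  obtain ⟨N₁, hN₁⟩ := Filter.eventually_atTop.1 (hev1.and hev2)
  refine ⟨C, θ, K, max N₁ (max 3 (A + 1)), hC0, hθ0, ?_, ?_⟩
  · -- the bound for the coefficients
    intro i N j x hN hj
    rw [mem_Ico] at hj
    refine (hyb N j x hN).trans ?_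
    have h1 : (2 : ℝ) ^ i ≤ j := by exact_mod_cast hj.1
    have h2 : ((i : ℝ) + 1) / 2 * Real.log 2 ≤ Real.log ((j : ℝ) + 2) := by
      rcases Nat.eq_zero_or_pos i with hi | hi
      · subst hi
        have h3 : Real.log 2 ≤ Real.log ((j : ℝ) + 2) :=
          Real.log_le_log (by norm_num) (by
            have : (0 : ℝ) ≤ j := Nat.cast_nonneg _
            linarith)
        push_cast
        linarith
      · have h3 : Real.log ((2 : ℝ) ^ i) ≤ Real.log ((j : ℝ) + 2) :=
          Real.log_le_log (by positivity) (by linarith)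
        rw [Real.log_pow] at h3
        have h4 : (1 : ℝ) ≤ i := by exact_mod_cast hi
        nlinarith
    have h5 : c * (2 : ℝ) ^ i * (((i : ℝ) + 1) / 2 * Real.log 2) ≤ (Nat.nth Nat.Prime j : ℝ) := by
      refine le_trans ?_ (hlow j)
      apply mul_le_mul _ h2 (by positivity) (by positivity)
      exact mul_le_mul_of_nonneg_left (by linarith) hc.le
    have h6 : 0 < c * (2 : ℝ) ^ i * (((i : ℝ) + 1) / 2 * Real.log 2) := by positivity
    calc CY / (Nat.nth Nat.Prime j : ℝ) ≤ CY / (c * (2 : ℝ) ^ i * (((i : ℝ) + 1) / 2 *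
          Real.log 2)) := div_le_div_of_nonneg_left hCY.le h6 h5
      _ = C / (2 ^ i * ((i : ℝ) + 1)) := by
          rw [hC]
          field_simp
  · intro N hN x hx
    have hN1 : N₁ ≤ N := (le_max_left _ _).trans hN
    have hN3 : 3 ≤ N := (le_max_left _ _).trans ((le_max_right _ _).trans hN)
    have hNA : A + 1 ≤ N := (le_max_right _ _).trans ((le_max_right _ _).trans hN)
    obtain ⟨h1, h2⟩ := hN₁ N hN1
    have hlN := log_ge_one hN3
    have hlN0 : 0 < Real.log N := by linarith
    by_contra hcon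
    push Not at hcon
    set i0 := i₀ N with hi0
    set m := Nat.clog 2 (N + A + 1) with hm
    have hdec' := hdec x N (2 ^ i0) (2 ^ m) hN3 (Nat.le_pow_clog one_lt_two _)
    -- the error term
    have hclog : (Nat.clog 2 N : ℝ) * Real.log 2 ≤ Real.log N + Real.log 2 := by
      have h3 : 2 ^ (Nat.clog 2 N - 1) < N := Nat.pow_pred_clog_lt_self one_lt_two (by omega)
      have h4 : ((Nat.clog 2 N - 1 : ℕ) : ℝ) * Real.log 2 ≤ Real.log N := by
        rw [← Real.log_pow]
        apply Real.log_le_log (by positivity)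
        exact_mod_cast h3.le
      have h5 : (Nat.clog 2 N : ℝ) ≤ ((Nat.clog 2 N - 1 : ℕ) : ℝ) + 1 := by
        have : Nat.clog 2 N ≤ (Nat.clog 2 N - 1) + 1 := by omega
        exact_mod_cast this
      nlinarith
    have hi0le : (i0 : ℝ) * Real.log 2 ≤ (Real.log N + Real.log 2) / K + Real.log 2 := by
      have h3 : (i0 : ℝ) ≤ (Nat.clog 2 N : ℝ) / K + 1 := by
        show ((Nat.clog 2 N / K + 1 : ℕ) : ℝ) ≤ _
        push_cast
        have := Nat.cast_div_le (α := ℝ) (m := Nat.clog 2 N) (n := K)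
        linarith
      calc (i0 : ℝ) * Real.log 2 ≤ ((Nat.clog 2 N : ℝ) / K + 1) * Real.log 2 :=
            mul_le_mul_of_nonneg_right h3 hl2.le
        _ = ((Nat.clog 2 N : ℝ) * Real.log 2) / K + Real.log 2 := by ring
        _ ≤ _ := by
            have := div_le_div_of_nonneg_right hclog hK0.le
            linarith
    have hlogp : Real.log (Nat.nth Nat.Prime (2 ^ i0)) ≤ CL * (Real.log N / K + 4) := by
      refine (hup (2 ^ i0)).trans (mul_le_mul_of_nonneg_left ?_ hCL.le)
      have h3 : Real.log (((2 ^ i0 : ℕ) : ℝ) + 2) ≤ Real.log ((2 : ℝ) ^ (i0 + 2)) := by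
        apply Real.log_le_log (by positivity)
        push_cast
        have h9 : (1 : ℝ) ≤ 2 ^ i0 := one_le_pow₀ (by norm_num)
        have h10 : (2 : ℝ) ^ (i0 + 2) = 2 ^ i0 * 4 := by
          rw [pow_add]
          norm_num
        rw [h10]
        linarith
      rw [Real.log_pow] at h3
      have h4 : Real.log 2 / K ≤ 1 := by
        rw [div_le_one hK0]
        have : (1 : ℝ) ≤ K := by exact_mod_cast hK1
        linarith
      push_cast at h3
      have h5 : (Real.log N + Real.log 2) / K = Real.log N / K + Real.log 2 / K := add_div _ _ _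
      push_cast
      nlinarith
    have herr : CD * (1 / (Nat.nth Nat.Prime (2 ^ i0) : ℝ) +
        (1 + Real.log (Nat.nth Nat.Prime (2 ^ i0))) / Real.log N) < 3 * (ε / 8) := by
      have h3 : CD * (1 / (Nat.nth Nat.Prime (2 ^ i0) : ℝ)) < ε / 8 := by
        refine lt_of_le_of_lt (mul_le_mul_of_nonneg_left ?_ hCD.le) h2
        apply one_div_le_one_div_of_le (by positivity)
        have h4 : 2 ^ i0 ≤ Nat.nth Nat.Prime (2 ^ i0) := by
          have := Nat.add_two_le_nth_prime (2 ^ i0)
          omega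
        exact_mod_cast h4
      have h4 : CD * ((1 + Real.log (Nat.nth Nat.Prime (2 ^ i0))) / Real.log N) ≤
          CD * (1 + 4 * CL) / Real.log N + CD * CL / K := by
        have h5 : (1 + Real.log (Nat.nth Nat.Prime (2 ^ i0))) / Real.log N ≤
            (1 + CL * (Real.log N / K + 4)) / Real.log N :=
          div_le_div_of_nonneg_right (by linarith) hlN0.le
        calc CD * ((1 + Real.log (Nat.nth Nat.Prime (2 ^ i0))) / Real.log N) ≤
              CD * ((1 + CL * (Real.log N / K + 4)) / Real.log N) :=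
              mul_le_mul_of_nonneg_left h5 hCD.le
          _ = CD * (1 + 4 * CL) / Real.log N + CD * CL / K := by
              field_simp
              ring
      have h5 : CD * CL / K ≤ ε / 8 := by
        rw [div_le_iff₀ hK0]
        rw [div_le_iff₀ hε] at hK
        linarith
      rw [mul_add]
      linarith
    -- the block sums
    have hsum : |∑ j ∈ Ico (2 ^ i0) (2 ^ m), sg (x j) * Y N H j x| ≤ ε / 4 := by
      rcases Nat.lt_or_ge m i0 with hmi | hmi
      · rw [Finset.Ico_eq_empty_of_le (Nat.pow_le_pow_right two_pos hmi.le), Finset.sum_empty,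
          abs_zero]
        positivity
      · rw [block_union _ _ _ hmi]
        have h3 : ∀ i ∈ Ico i0 m, |∑ j ∈ Ico (2 ^ i) (2 ^ (i + 1)), sg (x j) * Y N H j x| ≤
            θ * (C / ((i0 : ℝ) + 1)) := by
          intro i hi
          rw [mem_Ico] at hi
          refine (hcon i (hNpow N i hi.1)).trans ?_
          apply mul_le_mul_of_nonneg_left _ hθ0.le
          apply div_le_div_of_nonneg_left hC0.le (by positivity)
          have : (i0 : ℝ) ≤ i := by exact_mod_cast hi.1
          linarith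
        refine (Finset.abs_sum_le_sum_abs _ _).trans ((Finset.sum_le_sum h3).trans ?_)
        rw [Finset.sum_const, Nat.card_Ico, nsmul_eq_mul]
        have h4 : m ≤ K * i0 + 1 := by
          have h5 : m ≤ Nat.clog 2 N + 1 := by
            have h6 : N ≤ 2 ^ Nat.clog 2 N := Nat.le_pow_clog one_lt_two N
            have h7 : N + A + 1 ≤ 2 ^ (Nat.clog 2 N + 1) := by
              rw [pow_succ]
              omega
            exact Nat.clog_le_of_le_pow h7
          have h6 : Nat.clog 2 N ≤ K * i0 := hi₀ N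
          omega
        have h5 : ((m - i0 : ℕ) : ℝ) ≤ K * ((i0 : ℝ) + 1) * 2 := by
          have h6 : ((m - i0 : ℕ) : ℝ) ≤ (m : ℝ) := by exact_mod_cast Nat.sub_le _ _
          have h7 : (m : ℝ) ≤ K * i0 + 1 := by exact_mod_cast h4
          have h8 : (1 : ℝ) ≤ K := by exact_mod_cast hK1
          have h9 : (0 : ℝ) ≤ i0 := Nat.cast_nonneg _
          nlinarith
        calc ((m - i0 : ℕ) : ℝ) * (θ * (C / ((i0 : ℝ) + 1))) ≤
              (K * ((i0 : ℝ) + 1) * 2) * (θ * (C / ((i0 : ℝ) + 1))) :=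
              mul_le_mul_of_nonneg_right h5 (by positivity)
          _ = ε / 4 := by
              rw [hθ]
              field_simp
              ring
    have hfin : |lavg N (corr (cm x) H)| ≤
        |lavg N (corr (cm x) H) - ∑ j ∈ Ico (2 ^ i0) (2 ^ m), sg (x j) * Y N H j x| +
        |∑ j ∈ Ico (2 ^ i0) (2 ^ m), sg (x j) * Y N H j x| := by
      have := abs_add_le (lavg N (corr (cm x) H) -
        ∑ j ∈ Ico (2 ^ i0) (2 ^ m), sg (x j) * Y N H j x)
        (∑ j ∈ Ico (2 ^ i0) (2 ^ m), sg (x j) * Y N H j x)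
      rwa [sub_add_cancel] at this
    linarith

end Pool.Agent.H92.EX
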