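import Pool.Agent.H92.EX.Targets2
import Pool.Agent.H49.RR.RRAP
import Pool.Agent.H86.MT.DIV

/-!
# MP_34b97f_an: real multiplicative functions which pretend to be `1` are rationally almost periodic
-/

set_option autoImplicit false

open MeasureTheory ProbabilityTheory Filter Topology Finset

namespace Pool.Agent.H92.EX

open Pool.Agent.H89.MT Pool.Agent.H92.RR
open Pool.Agent.H49.RR (mem_pr SS_mono SS_tail sq_tail mult_all eq_prod cv cv_period cv_nat sum_dvd)

theorem abs_prod_le_one {ι : Type*} (s : Finset ι) (a : ι → ℝ) (ha : ∀ i ∈ s, |a i| ≤ 1) :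
    |∏ i ∈ s, a i| ≤ 1 := by
  rw [Finset.abs_prod]
  exact Finset.prod_le_one (fun i _ => abs_nonneg _) ha

theorem abs_prod_sub_prod_le {ι : Type*} (s : Finset ι) (a b : ι → ℝ)
    (ha : ∀ i ∈ s, |a i| ≤ 1) (hb : ∀ i ∈ s, |b i| ≤ 1) :
    |∏ i ∈ s, a i - ∏ i ∈ s, b i| ≤ ∑ i ∈ s, |a i - b i| := by
  classical
  induction s using Finset.induction_on with
  | empty => simp
  | insert x s hx ih =>
    rw [Finset.prod_insert hx, Finset.prod_insert hx, Finset.sum_insert hx]
    have ih' := ih (fun i hi => ha i (Finset.mem_insert_of_mem hi))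
      (fun i hi => hb i (Finset.mem_insert_of_mem hi))
    have h1 := ha x (Finset.mem_insert_self x s)
    have h2 := abs_prod_le_one s b (fun i hi => hb i (Finset.mem_insert_of_mem hi))
    have e : a x * ∏ i ∈ s, a i - b x * ∏ i ∈ s, b i =
        a x * (∏ i ∈ s, a i - ∏ i ∈ s, b i) + (a x - b x) * ∏ i ∈ s, b i := by ring
    rw [e]
    have h3 : |a x * (∏ i ∈ s, a i - ∏ i ∈ s, b i)| ≤ |∏ i ∈ s, a i - ∏ i ∈ s, b i| := by
      rw [abs_mul]
      exact mul_le_of_le_one_left (abs_nonneg _) h1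
    have h4 : |(a x - b x) * ∏ i ∈ s, b i| ≤ |a x - b x| := by
      rw [abs_mul]
      exact mul_le_of_le_one_right (abs_nonneg _) h2
    have h5 := abs_add_le (a x * (∏ i ∈ s, a i - ∏ i ∈ s, b i)) ((a x - b x) * ∏ i ∈ s, b i)
    linarith

theorem absI (a : I1) : |(a : ℝ)| ≤ 1 := abs_le.2 ⟨a.2.1, a.2.2⟩

/-- the periodic function -/
noncomputable def Qg (u : ℕ → I1) (z K : ℕ) (m : ℤ) : I1 :=
  ⟨∏ p ∈ pr z, (u (p ^ cv K p m) : ℝ), abs_le.1 (abs_prod_le_one (pr z)
    (fun p => (u (p ^ cv K p m) : ℝ)) fun _ _ => absI _)⟩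

/-- the pointwise bound -/
theorem pointwise {u : ℕ → I1} (hu : IsMult u) {z K N n : ℕ}
    (hzN : z ≤ N) (h1 : 1 ≤ n) (h2 : n ≤ N) :
    |(u n : ℝ) - Qg u z K (n : ℤ)| ≤
      ∑ p ∈ pr N, (if p ≤ z then 2 * (if p ^ (K + 1) ∣ n + 0 then (1 : ℝ) else 0)
        else ((1 - (u p : ℝ)) * (if p ∣ n + 0 then (1 : ℝ) else 0) +
          2 * (if p ^ 2 ∣ n + 0 then (1 : ℝ) else 0))) := by
  have hn : n ≠ 0 := by omega
  have e1 := eq_prod hu h1 h2
  have e2 : ((Qg u z K (n : ℤ)) : ℝ) =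
      ∏ p ∈ pr N, (if p ≤ z then (u (p ^ cv K p (n : ℤ)) : ℝ) else 1) := by
    have e3 : (pr N).filter (fun p => p ≤ z) = pr z := by
      ext p
      rw [Finset.mem_filter, mem_pr, mem_pr]
      exact ⟨fun h => ⟨h.2, h.1.2⟩, fun h' => ⟨⟨h'.1.trans hzN, h'.2⟩, h'.1⟩⟩
    rw [← Finset.prod_filter, e3]
    rfl
  rw [e1, e2]
  refine (abs_prod_sub_prod_le _ _ _ (fun p _ => absI _) (fun p _ => ?_)).trans ?_
  · split_ifs
    · exact absI _
    · rw [abs_one]
  · apply Finset.sum_le_sum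
    intro p hp
    rw [mem_pr] at hp
    have hpp := hp.2
    have habs : ∀ a b : ℝ, |a| ≤ 1 → |b| ≤ 1 → |a - b| ≤ 2 := by
      intro a b ha hb
      have := abs_sub a b
      linarith
    split_ifs with c1 c2 c3 c4 c5
    · rw [mul_one]
      exact habs _ _ (absI _) (absI _)
    · have h3 : cv K p (n : ℤ) = n.factorization p := by
        rw [cv_nat hpp hn]
        rw [add_zero, hpp.pow_dvd_iff_le_factorization hn] at c2
        omega
      rw [h3, sub_self, abs_zero, mul_zero]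
    · have h4 := habs _ 1 (absI (u (p ^ n.factorization p))) abs_one.le
      have h5 := (u p).2.2
      linarith
    · have h3 : n.factorization p = 1 := by
        rw [add_zero] at c3 c4
        have h6 : 1 ≤ n.factorization p := by
          rw [← hpp.pow_dvd_iff_le_factorization hn, pow_one]
          exact c3
        rw [hpp.pow_dvd_iff_le_factorization hn] at c4
        omega
      have h5 := (u p).2.2
      rw [h3, pow_one, abs_sub_comm, abs_of_nonneg (by linarith)]
      linarith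
    · have h4 := habs _ 1 (absI (u (p ^ n.factorization p))) abs_one.le
      linarith
    · have h3 : n.factorization p = 0 := by
        rw [add_zero] at c3
        exact Nat.factorization_eq_zero_of_not_dvd c3
      rw [h3, pow_zero, hu.1]
      simp

theorem pf_XRAP : T_XRAP := by
  have hDIV : T_DIV := Pool.Agent.H86.MT.pf_DIV
  intro u hu hB ε hε
  set w : ℕ → ℝ := fun p => 1 - (u p : ℝ) with hw
  have hw0 : ∀ p, 0 ≤ w p := fun p => sub_nonneg.2 (u p).2.2
  obtain ⟨z₀, hz₀⟩ : ∃ z₀ : ℕ, (⨆ N, SS w N) - ε / 16 < SS w z₀ :=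
    exists_lt_of_lt_ciSup (by linarith)
  obtain ⟨z₁, hz₁⟩ := exists_nat_gt (16 / ε)
  set z : ℕ := max (max z₀ z₁) 1 with hz
  have hzpos : 0 < z := lt_of_lt_of_le one_pos (le_max_right _ _)
  have hz' : (0 : ℝ) < z := by exact_mod_cast hzpos
  have hzinv : (1 : ℝ) / z ≤ ε / 16 := by
    have h1 : (z₁ : ℝ) ≤ z := by exact_mod_cast (le_max_right z₀ z₁).trans (le_max_left _ 1)
    have h2 : 16 / ε < z := lt_of_lt_of_le hz₁ h1
    rw [div_lt_iff₀ hε] at h2
    rw [div_le_div_iff₀ hz' (by norm_num)]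
    linarith
  have htail : ∀ N, z ≤ N → SS w N - SS w z ≤ ε / 16 := by
    intro N _
    have h1 : SS w N ≤ ⨆ N, SS w N := le_ciSup hB N
    have h2 : SS w z₀ ≤ SS w z := SS_mono hw0 ((le_max_left z₀ z₁).trans (le_max_left _ 1))
    linarith
  obtain ⟨K, hK⟩ : ∃ K : ℕ, (z : ℝ) * (1 / 2) ^ K ≤ ε / 16 := by
    have h1 : Tendsto (fun K : ℕ => (z : ℝ) * (1 / 2) ^ K) atTop (𝓝 ((z : ℝ) * 0)) :=
      (tendsto_pow_atTop_nhds_zero_of_lt_one (by norm_num) (by norm_num)).const_mul _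
    rw [mul_zero] at h1
    exact (h1.eventually_le_const (by positivity)).exists
  set q : ℕ := ∏ p ∈ pr z, p ^ K with hq
  refine ⟨q, Qg u z K, ?_, ?_, ?_⟩
  · exact Finset.prod_pos fun p hp => pow_pos (mem_pr.1 hp).2.pos K
  · intro m
    apply Subtype.ext
    show ∏ p ∈ pr z, (u (p ^ cv K p (m + q)) : ℝ) = ∏ p ∈ pr z, (u (p ^ cv K p m) : ℝ)
    apply Finset.prod_congr rfl
    intro p hp
    rw [cv_period K p m q]
    have h1 : p ^ K ∣ q := Finset.dvd_prod_of_mem (fun p => p ^ K) hp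
    exact_mod_cast h1
  · filter_upwards [eventually_ge_atTop (max z 3)] with N hN
    have hzN : z ≤ N := (le_max_left _ _).trans hN
    have h3N : 3 ≤ N := (le_max_right _ _).trans hN
    have hlog : 1 ≤ Real.log N := by
      rw [Real.le_log_iff_exp_le (by positivity)]
      have h1 : (3 : ℝ) ≤ N := by exact_mod_cast h3N
      linarith [Real.exp_one_lt_d9]
    unfold lavg
    rw [div_le_iff₀ (by linarith)]
    set g : ℕ → ℕ → ℝ := fun p n =>
      (if p ≤ z then 2 * (if p ^ (K + 1) ∣ n + 0 then (1 : ℝ) else 0)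
        else ((1 - (u p : ℝ)) * (if p ∣ n + 0 then (1 : ℝ) else 0) +
          2 * (if p ^ 2 ∣ n + 0 then (1 : ℝ) else 0))) with hg
    have hstep : ∑ n ∈ Icc 1 N, |(u n : ℝ) - Qg u z K (n : ℤ)| / n ≤
        ∑ p ∈ pr N, ∑ n ∈ Icc 1 N, g p n / n := by
      rw [Finset.sum_comm]
      apply Finset.sum_le_sum
      intro n hn
      rw [Finset.mem_Icc] at hn
      rw [← Finset.sum_div]
      exact div_le_div_of_nonneg_right (pointwise hu hzN hn.1 hn.2) (Nat.cast_nonneg n)
    have hp : ∀ p ∈ pr N, ∑ n ∈ Icc 1 N, g p n / n ≤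
        (if p ≤ z then 2 * (1 / 2 : ℝ) ^ K else (w p / p + 2 * (1 / (p : ℝ) ^ 2))) *
          (1 + Real.log N) := by
      intro p hp
      rw [mem_pr] at hp
      have hp0 : 0 < p := hp.2.pos
      have hp0' : (0 : ℝ) < p := by exact_mod_cast hp0
      by_cases hpz : p ≤ z
      · simp only [hg, if_pos hpz]
        have e : ∀ n ∈ Icc 1 N, 2 * (if p ^ (K + 1) ∣ n + 0 then (1 : ℝ) else 0) / (n : ℝ) =
            2 * ((if p ^ (K + 1) ∣ n + 0 then (1 : ℝ) else 0) / n) := fun n _ =>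
          mul_div_assoc _ _ _
        rw [Finset.sum_congr rfl e, ← Finset.mul_sum, mul_assoc]
        apply mul_le_mul_of_nonneg_left _ (by norm_num)
        refine (sum_dvd hDIV (p ^ (K + 1)) N (Nat.one_le_pow _ _ hp0)).trans ?_
        apply mul_le_mul_of_nonneg_right _ (by linarith)
        rw [Nat.cast_pow, ← one_div_pow]
        have h2 : (1 : ℝ) / p ≤ 1 / 2 := by
          apply one_div_le_one_div_of_le (by norm_num)
          exact_mod_cast hp.2.two_le
        calc (1 / (p : ℝ)) ^ (K + 1) ≤ (1 / 2 : ℝ) ^ (K + 1) :=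
              pow_le_pow_left₀ (by positivity) h2 _
          _ ≤ (1 / 2 : ℝ) ^ K := by
              rw [pow_succ]
              have h4 : (0 : ℝ) ≤ (1 / 2) ^ K := by positivity
              linarith
      · simp only [hg, if_neg hpz]
        have e : ∀ n ∈ Icc 1 N, ((1 - (u p : ℝ)) * (if p ∣ n + 0 then (1 : ℝ) else 0) +
            2 * (if p ^ 2 ∣ n + 0 then (1 : ℝ) else 0)) / (n : ℝ) =
            w p * ((if p ∣ n + 0 then (1 : ℝ) else 0) / n) +
              2 * ((if p ^ 2 ∣ n + 0 then (1 : ℝ) else 0) / n) := by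
          intro n _
          rw [add_div, mul_div_assoc, mul_div_assoc]
        rw [Finset.sum_congr rfl e, Finset.sum_add_distrib, ← Finset.mul_sum, ← Finset.mul_sum]
        have h1 := mul_le_mul_of_nonneg_left (sum_dvd hDIV p N hp0) (hw0 p)
        have h2 := mul_le_mul_of_nonneg_left (sum_dvd hDIV (p ^ 2) N (Nat.one_le_pow _ _ hp0))
          (show (0 : ℝ) ≤ 2 by norm_num)
        rw [Nat.cast_pow] at h2
        calc _ ≤ w p * (1 / p * (1 + Real.log N)) + 2 * (1 / (p : ℝ) ^ 2 * (1 + Real.log N)) :=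
              add_le_add h1 h2
          _ = (w p / p + 2 * (1 / (p : ℝ) ^ 2)) * (1 + Real.log N) := by ring
    have hsum : ∑ p ∈ pr N, (if p ≤ z then 2 * (1 / 2 : ℝ) ^ K
        else (w p / p + 2 * (1 / (p : ℝ) ^ 2))) ≤ 5 * (ε / 16) := by
      have e3 : (pr N).filter (fun p => p ≤ z) = pr z := by
        ext p
        rw [Finset.mem_filter, mem_pr, mem_pr]
        exact ⟨fun h => ⟨h.2, h.1.2⟩, fun h' => ⟨⟨h'.1.trans hzN, h'.2⟩, h'.1⟩⟩
      rw [Finset.sum_ite, e3, Finset.sum_const, nsmul_eq_mul, Finset.sum_add_distrib,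
        SS_tail hzN, ← Finset.mul_sum]
      have h1 : ((pr z).card : ℝ) ≤ z := by
        have h2 : (pr z).card ≤ z := by
          calc (pr z).card ≤ (Icc 1 z).card := Finset.card_filter_le _ _
            _ = z := by simp
        exact_mod_cast h2
      have h2 : ((pr z).card : ℝ) * (1 / 2) ^ K ≤ ε / 16 :=
        (mul_le_mul_of_nonneg_right h1 (by positivity)).trans hK
      have h3 := htail N hzN
      have h4 := sq_tail (N := N) hzpos
      linarith
    calc ∑ n ∈ Icc 1 N, |(u n : ℝ) - Qg u z K (n : ℤ)| / n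
        ≤ ∑ p ∈ pr N, ∑ n ∈ Icc 1 N, g p n / n := hstep
      _ ≤ ∑ p ∈ pr N, (if p ≤ z then 2 * (1 / 2 : ℝ) ^ K
            else (w p / p + 2 * (1 / (p : ℝ) ^ 2))) * (1 + Real.log N) := Finset.sum_le_sum hp
      _ = (∑ p ∈ pr N, (if p ≤ z then 2 * (1 / 2 : ℝ) ^ K
            else (w p / p + 2 * (1 / (p : ℝ) ^ 2)))) * (1 + Real.log N) := by
          rw [Finset.sum_mul]
      _ ≤ 5 * (ε / 16) * (1 + Real.log N) :=
          mul_le_mul_of_nonneg_right hsum (by linarith)
      _ ≤ ε * Real.log N := by nlinarith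

end Pool.Agent.H92.EX
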