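import Pool.Agent.H92.EX.Main2
import Pool.Agent.H92.EX.XBLK
import Pool.Agent.H92.EX.XRAP
import Pool.Agent.H92.RR.All
import Pool.Agent.H54.EX.XAZU
import Pool.Agent.H65.EX.XDEG
import Pool.Agent.H74.EX.XDAS
import Pool.Agent.H74.MT.CYL
import Pool.Agent.H74.MT.GEN
import Pool.Agent.H48.MT2.SHF
import Pool.Agent.H78.EX.XMON
import Pool.Agent.H78.EX.XPER
import Pool.Agent.H95.EX.XCHB
import Pool.Agent.H95.EX.XDIM
import Pool.Agent.H95.EX.XGAU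
import Pool.Agent.H95.EX.XHDF
import Pool.Agent.H95.EX.XMSQ

/-!
# MP_34b97f_an: the exceptional set. All modules together
-/

open MeasureTheory ProbabilityTheory Filter Topology Finset
open scoped ENNReal

universe u

namespace Pool.Agent.H92.EX

open Pool.Agent.H89.MT Pool.Agent.H92.RR

theorem all_GEN : T_GEN :=
  Pool.Agent.H74.MT.pf_GEN Pool.Agent.H48.MT2.pf_SHF Pool.Agent.H74.MT.pf_CYL
    Pool.Agent.H60.MT.pf_BER

theorem all_BLK : T_BLK := pf_BLK pf_DEC pf_YB Pool.Agent.H95.EX.pf_XCHB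

theorem all_DIM : T_DIM :=
  Pool.Agent.H95.EX.pf_XDIM all_BLK Pool.Agent.H54.EX.pf_XAZU Pool.Agent.H95.EX.pf_XHDF pf_DEP

theorem all_DAS : T_DAS.{u} :=
  Pool.Agent.H74.EX.pf_XDAS pf_DEC pf_YB Pool.Agent.H95.EX.pf_XCHB pf_DEP
    Pool.Agent.H95.EX.pf_XMSQ Pool.Agent.H51.MT.pf_INT

theorem all_Hyp : Hyp where
  rap := all_RAP
  odg := Pool.Agent.H41.RR.pf_ODG
  prs := Pool.Agent.H23.RR.pf_RPRS
  ode := all_ODE
  odc := Pool.Agent.H95.RR.pf_RODC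
  ods := Pool.Agent.H7.RR.pf_RODS all_SWX
  stm := all_STM
  ste := all_STE
  nz := all_NZ
  nzd := Pool.Agent.H23.RR.pf_RNZD
  nzp := Pool.Agent.H79.RR.pf_NZP
  iso := Pool.Agent.H1.RR.pf_RISO
  dir := Pool.Agent.H23.RR.pf_RDIR
  gst := all_GST
  unq := Pool.Agent.H74.MT.pf_UNQ
  gen := all_GEN
  mon := Pool.Agent.H78.EX.pf_XMON pf_XRAP Pool.Agent.H78.EX.pf_XPER pf_CM
  deg := Pool.Agent.H65.EX.pf_XDEG Pool.Agent.H33.MT.pf_MERT Pool.Agent.H33.MT.pf_EUL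

theorem all_MAIN2 : T_MAIN2.{u} := main2 all_DIM Pool.Agent.H95.EX.pf_XGAU all_DAS all_Hyp

end Pool.Agent.H92.EX
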