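import Pool.Agent.H89.MT.Targets

/-!
# MP_34b97f_an: the exceptional set in the logarithmic Chowla conjecture. Definitions
-/

open MeasureTheory ProbabilityTheory Filter Topology Finset
open scoped ENNReal

namespace Pool.Agent.H92.EX

open Pool.Agent.H89.MT

/-- the number of prime factors `p` of `n`, with multiplicity, whose index is marked by `x` (the
index of the prime `p` is the number of primes below `p`) -/
def par (x : ℕ → Bool) (n : ℕ) : ℕ :=
  ∑ p ∈ n.primeFactors, if x (Nat.count Nat.Prime p) then n.factorization p else 0

/-- the completely multiplicative function with the value `-1` at the primes marked by `x` and the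
value `1` at the other primes -/
def cm (x : ℕ → Bool) (n : ℕ) : I1 := if Even (par x n) then o1 else m1

/-- the sign which belongs to a mark -/
def sg (b : Bool) : ℝ := if b then -1 else 1

/-- the functions for which the logarithmic correlation along `H` is at least `ε` infinitely
often -/
def Exc (H : Finset ℕ) (ε : ℝ) : Set (ℕ → Bool) :=
  {x | ∃ᶠ N : ℕ in atTop, ε ≤ |lavg N (corr (cm x) H)|}

/-- the Hausdorff dimension of a set of sequences, for the metric `2 ^ (-m)`, where `m` is the first
index at which the sequences differ -/
noncomputable def dimB (E : Set (ℕ → Bool)) : ℝ≥0∞ :=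
  letI : MetricSpace (ℕ → Bool) := PiNat.metricSpace
  dimH E

/-- the Hausdorff measure of a set of sequences with gauge function `g`, for the same metric -/
noncomputable def gaugeB (g : ℝ≥0∞ → ℝ≥0∞) (E : Set (ℕ → Bool)) : ℝ≥0∞ :=
  letI : MetricSpace (ℕ → Bool) := PiNat.metricSpace
  OuterMeasure.mkMetric g E

/-- the information contained in the signs of the first `j` primes -/
@[reducible] def fil {Ω : Type*} (ξ : Ω → ℕ → Bool) (j : ℕ) : MeasurableSpace Ω :=
  ⨆ i ∈ Finset.range j, MeasurableSpace.comap (fun ω => ξ ω i) ⊤

/-- the bias of the sign of the prime with index `j`, given the signs of the smaller primes -/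
noncomputable def bias {Ω : Type*} [MeasurableSpace Ω] (P : Measure Ω) (ξ : Ω → ℕ → Bool) (j : ℕ)
    (ω : Ω) : ℝ :=
  |(P[fun ω' => sg (ξ ω' j) | fil ξ j]) ω|

/-! ## Auxiliary notions -/

/-- the largest prime factor -/
def top (m : ℕ) : ℕ := m.primeFactors.sup id

/-- the product of the numbers `n + h` -/
def PP (H : Finset ℕ) (n : ℕ) : ℕ := ∏ h ∈ H, (n + h)

/-- the coefficient of the sign of the prime `p` with index `j` in the logarithmic correlation:
only the `n` are counted for which `p` is the largest prime factor of the product of the `n + h`,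
with multiplicity one -/
noncomputable def Y (N : ℕ) (H : Finset ℕ) (j : ℕ) (x : ℕ → Bool) : ℝ :=
  (∑ n ∈ (Icc 1 N).filter (fun n => top (PP H n) = Nat.nth Nat.Prime j ∧
    ¬ (Nat.nth Nat.Prime j) ^ 2 ∣ PP H n), (cm x (PP H n / Nat.nth Nat.Prime j) : ℝ) / n) /
    Real.log N

/-- a sequence of marks from finitely many marks -/
def ext {n : ℕ} (w : Fin n → Bool) (i : ℕ) : Bool := if h : i < n then w ⟨i, h⟩ else false

end Pool.Agent.H92.EX
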