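import Pool.Agent.H92.EX.Targets

/-!
# MP_34b97f_an: the exceptional set in the logarithmic Chowla conjecture. Assembly
-/

open MeasureTheory ProbabilityTheory Filter Topology Finset
open scoped ENNReal

universe u

namespace Pool.Agent.H92.EX

open Pool.Agent.H89.MT

/-- an enumeration of the exceptional sets -/
noncomputable def EE (i : ℕ) : Set (ℕ → Bool) :=
  match Encodable.decode (α := Finset ℕ × ℕ) i with
  | some q => if q.1.Nonempty then Exc q.1 (1 / ((q.2 : ℝ) + 1)) else ∅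
  | none => ∅

theorem dimB_empty : dimB ∅ = 0 := by
  unfold dimB
  let _ : MetricSpace (ℕ → Bool) := PiNat.metricSpace
  exact dimH_empty

theorem dimB_EE (h : T_DIM) (i : ℕ) : dimB (EE i) < 1 := by
  unfold EE
  cases Encodable.decode (α := Finset ℕ × ℕ) i with
  | none =>
    show dimB ∅ < 1
    rw [dimB_empty]
    exact one_pos
  | some q =>
    show dimB (if q.1.Nonempty then Exc q.1 (1 / ((q.2 : ℝ) + 1)) else ∅) < 1
    by_cases hq : q.1.Nonempty
    · rw [if_pos hq]
      exact h q.1 hq _ (by positivity)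
    · rw [if_neg hq, dimB_empty]
      exact one_pos

theorem abs_cm (x : ℕ → Bool) (n : ℕ) : |(cm x n : ℝ)| = 1 := by
  unfold cm
  split_ifs
  · simp [o1]
  · simp [m1]

theorem generic_of_not_mem (hGEN : T_GEN) (hUNQ : T_UNQ) (x : ℕ → Bool) (hx : x ∉ ⋃ i, EE i) :
    Generic (cm x) bern ∧ ∀ κ : Measure X, QuasiGeneric (cm x) κ ↔ κ = bern := by
  have : IsProbabilityMeasure bern := by unfold bern; infer_instance
  have hG : Generic (cm x) bern := by
    refine hGEN (cm x) (fun n _ => abs_cm x n) fun H hH => ?_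
    rw [Metric.tendsto_atTop]
    intro ε hε
    obtain ⟨m, hm⟩ := exists_nat_one_div_lt hε
    have h1 : x ∉ Exc H (1 / ((m : ℝ) + 1)) := by
      intro hmem
      refine hx (Set.mem_iUnion.2 ⟨Encodable.encode ((H, m) : Finset ℕ × ℕ), ?_⟩)
      unfold EE
      rw [Encodable.encodek]
      show x ∈ (if H.Nonempty then Exc H (1 / ((m : ℝ) + 1)) else ∅)
      rw [if_pos hH]
      exact hmem
    have h2 : ∀ᶠ N : ℕ in atTop, ¬ (1 / ((m : ℝ) + 1) ≤ |lavg N (corr (cm x) H)|) :=
      Filter.not_frequently.1 h1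
    obtain ⟨N₀, hN₀⟩ := Filter.eventually_atTop.1 h2
    refine ⟨N₀, fun N hN => ?_⟩
    have h3 := hN₀ N hN
    rw [not_le] at h3
    rw [Real.dist_eq, sub_zero]
    exact h3.trans hm
  exact ⟨hG, hUNQ (cm x) bern inferInstance hG⟩

theorem gaugeB_mono (g : ℝ≥0∞ → ℝ≥0∞) {A B : Set (ℕ → Bool)} (h : A ⊆ B) :
    gaugeB g A ≤ gaugeB g B := by
  unfold gaugeB
  let _ : MetricSpace (ℕ → Bool) := PiNat.metricSpace
  exact measure_mono h

theorem main (hDIM : T_DIM) (hGAU : T_GAU) (hDAS : T_DAS.{u}) (hGEN : T_GEN) (hUNQ : T_UNQ) :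
    T_MAIN.{u} := by
  refine ⟨hDIM, ⟨EE, dimB_EE hDIM, fun x hx => generic_of_not_mem hGEN hUNQ x hx⟩,
    fun g hg => ?_, ?_⟩
  · refine le_antisymm ?_ (by exact bot_le)
    rw [← hGAU EE (dimB_EE hDIM) g hg]
    refine gaugeB_mono g fun x hx => ?_
    by_contra hc
    exact hx (generic_of_not_mem hGEN hUNQ x hc)
  · intro Ω _ P _ ξ hξ hb
    have h1 : ∀ᵐ ω ∂P, ∀ H : Finset ℕ, H.Nonempty →
        Tendsto (fun N => lavg N (corr (cm (ξ ω)) H)) atTop (𝓝 0) := by
      rw [ae_all_iff]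
      intro H
      by_cases hH : H.Nonempty
      · filter_upwards [hDAS Ω P ξ hξ hb H hH] with ω hω _
        exact hω
      · exact Eventually.of_forall fun ω h => absurd h hH
    have : IsProbabilityMeasure bern := by unfold bern; infer_instance
    filter_upwards [h1] with ω hω
    have hG : Generic (cm (ξ ω)) bern := hGEN (cm (ξ ω)) (fun n _ => abs_cm _ n) hω
    exact ⟨hG, hUNQ (cm (ξ ω)) bern inferInstance hG⟩

end Pool.Agent.H92.EX
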