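import Pool.Agent.H92.EX.Targets2
import Pool.Agent.H92.EX.Main
import Pool.Agent.H92.EX.XCM
import Pool.Agent.H92.RR.Main

/-!
# MP_34b97f_an: the exceptional set. Assembly for all real-valued functions
-/

open MeasureTheory ProbabilityTheory Filter Topology Finset
open scoped ENNReal

universe u

namespace Pool.Agent.H92.EX

open Pool.Agent.H89.MT Pool.Agent.H92.RR

theorem sgseq_spec (u : ℕ → I1) {p : ℕ} (hp : p.Prime) :
    (u p : ℝ) * cm (sgseq u) p = |(u p : ℝ)| := by
  have h1 : Nat.nth Nat.Prime (Nat.count Nat.Prime p) = p := Nat.nth_count hp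
  have h2 := cm_nth (sgseq u) (Nat.count Nat.Prime p)
  rw [h1] at h2
  rw [h2]
  unfold sgseq sg
  rw [h1]
  by_cases h : (u p : ℝ) < 0
  · rw [decide_eq_true h, if_pos rfl, abs_of_neg h]
    ring
  · rw [decide_eq_false h, abs_of_nonneg (not_lt.1 h)]
    simp

/-- the hypotheses which concern a single function -/
structure Hyp : Prop where
  rap : T_RAP
  odg : T_ODG
  prs : T_PRS
  ode : T_ODE
  odc : T_ODC
  ods : T_ODS
  stm : T_STM
  ste : T_STE
  nz : T_NZ
  nzd : T_NZD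
  nzp : T_NZP
  iso : T_ISO
  dir : T_DIR
  gst : T_GST
  unq : T_UNQ
  gen : T_GEN
  mon : T_XMON
  deg : T_XDEG

theorem all_of (h : Hyp) (u : ℕ → I1) (hu : IsMult u)
    (hx : ∀ H : Finset ℕ, H.Nonempty →
      Tendsto (fun N => lavg N (corr (cm (sgseq u)) H)) atTop (𝓝 0)) :
    ∃ κ : Measure X, Pred u κ ∧ Generic u κ ∧ ∀ κ' : Measure X, QuasiGeneric u κ' ↔ κ' = κ := by
  obtain ⟨α, hα, hg, hP⟩ := pred_of h.rap h.odg h.prs h.ode h.odc h.ods h.stm h.ste h.nz h.nzd
    h.nzp h.iso h.dir u hu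
  have hG : Generic u (star α) := by
    refine h.gst u α hα hg id tendsto_id fun H a hHa => ?_
    by_cases hB : BddAbove (Set.range (SS fun p => 1 - |(u p : ℝ)|))
    · exact h.mon u (sgseq u) hu hB (fun p hp => sgseq_spec u hp) hx H a hHa
    · exact h.deg u hu hB H a hHa
  exact ⟨star α, hP, hG, h.unq u (star α) hP.prob hG⟩

/-- the correlations vanish if the function is generic for the Bernoulli measure or, here, if the
sequence is not exceptional -/
theorem corr_of_not_mem (x : ℕ → Bool) (hx : x ∉ ⋃ i, EE i) (H : Finset ℕ) (hH : H.Nonempty) :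
    Tendsto (fun N => lavg N (corr (cm x) H)) atTop (𝓝 0) := by
  rw [Metric.tendsto_atTop]
  intro ε hε
  obtain ⟨m, hm⟩ := exists_nat_one_div_lt hε
  have h1 : x ∉ Exc H (1 / ((m : ℝ) + 1)) := by
    intro hmem
    refine hx (Set.mem_iUnion.2 ⟨Encodable.encode ((H, m) : Finset ℕ × ℕ), ?_⟩)
    unfold EE
    rw [Encodable.encodek]
    show x ∈ (if H.Nonempty then Exc H (1 / ((m : ℝ) + 1)) else ∅)
    rw [if_pos hH]
    exact hmem
  have h2 : ∀ᶠ N : ℕ in atTop, ¬ (1 / ((m : ℝ) + 1) ≤ |lavg N (corr (cm x) H)|) :=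
    Filter.not_frequently.1 h1
  obtain ⟨N₀, hN₀⟩ := Filter.eventually_atTop.1 h2
  refine ⟨N₀, fun N hN => ?_⟩
  have h3 := hN₀ N hN
  rw [not_le] at h3
  rw [Real.dist_eq, sub_zero]
  exact h3.trans hm

theorem main2 (hDIM : T_DIM) (hGAU : T_GAU) (hDAS : T_DAS.{u}) (h : Hyp) : T_MAIN2.{u} := by
  refine ⟨hDIM, ⟨EE, dimB_EE hDIM, fun x hx => generic_of_not_mem h.gen h.unq x hx,
    fun u hu hx => all_of h u hu fun H hH => corr_of_not_mem _ hx H hH⟩, fun g hg => ?_, ?_⟩
  · refine le_antisymm ?_ (by exact bot_le)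
    rw [← hGAU EE (dimB_EE hDIM) g hg]
    refine gaugeB_mono g fun x hx => ?_
    by_contra hc
    refine hx ⟨(generic_of_not_mem h.gen h.unq x hc).1, fun u hu hux => ?_⟩
    exact all_of h u hu fun H hH => corr_of_not_mem _ (hux ▸ hc) H hH
  · intro Ω _ P _ ξ hξ hb
    have h1 : ∀ᵐ ω ∂P, ∀ H : Finset ℕ, H.Nonempty →
        Tendsto (fun N => lavg N (corr (cm (ξ ω)) H)) atTop (𝓝 0) := by
      rw [ae_all_iff]
      intro H
      by_cases hH : H.Nonempty
      · filter_upwards [hDAS Ω P ξ hξ hb H hH] with ω hω _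
        exact hω
      · exact Eventually.of_forall fun ω h => absurd h hH
    filter_upwards [h1] with ω hω
    refine ⟨h.gen (cm (ξ ω)) (fun n _ => abs_cm _ n) hω, fun u hu hux => ?_⟩
    exact all_of h u hu fun H hH => by
      rw [hux]
      exact hω H hH

end Pool.Agent.H92.EX
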