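import Pool.Agent.H73.EX.HFD
import Pool.Agent.H1.EX.WBA

/-!
# Row QCV of board exa: the two-sided sums converge (helper92)
-/

set_option autoImplicit false

open MeasureTheory ProbabilityTheory Filter Topology
open Pool.Agent.H95 Pool.Agent.H95.Cop
open Pool.Agent.H55.CG (Mo)
open Pool.Agent.H98.EX
open Pool.Agent.H1.EX Pool.Agent.H73.EX

namespace Pool.Agent.H92.EX

lemma qc_tilt (ρ : Measure ℝ) (hint : ∀ t : ℝ, Integrable (fun z => Real.exp (t * z)) ρ)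
    (θ t : ℝ) : Integrable (fun z => Real.exp (t * z)) (ρ.tilted fun t => θ * t) := by
  rw [integrable_tilted_iff (hint θ)]
  refine (hint (θ + t)).congr (Eventually.of_forall fun z => ?_)
  show Real.exp ((θ + t) * z) = Real.exp (θ * z) • Real.exp (t * z)
  rw [smul_eq_mul, ← Real.exp_add]
  congr 1
  ring

lemma qc_VL (n : ℕ) (y : ℕ → ℝ) : VL (n + 1) y = VL n y + Real.exp (H y 0 (n + 1)) := by
  unfold VL
  rw [Finset.sum_range_succ]

/-- one more tilted increment -/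
lemma qc_a (ρ : Measure ℝ) [IsProbabilityMeasure ρ]
    (hρ : ∀ t : ℝ, Integrable (fun z => Real.exp (t * z)) ρ) (θ p u : ℝ) (a b : ℕ) (hp : 0 ≤ p)
    (hu0 : 0 < u) (hu1 : u ≤ 1) :
    QQ ρ θ p a b ≤ QQ ρ θ p (a + 1) b +
      max 1 p * Mo (ρ.tilted fun t => θ * t) (-u) ^ (a + 1) := by
  haveI : IsProbabilityMeasure (ρ.tilted fun t => θ * t) := isProbabilityMeasure_tilted (hρ θ)
  obtain ⟨hi, he⟩ := integrable_expH (ρ.tilted fun t => θ * t) (qc_tilt ρ hρ θ) (-u) (a + 1)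
  unfold QQ
  rw [← he, ← integral_const_mul, ← integral_add (wb_oint ρ _ (a + 1) b hp) (hi.const_mul _)]
  refine integral_mono (wb_oint ρ _ a b hp) ((wb_oint ρ _ (a + 1) b hp).add (hi.const_mul _))
    fun z => ?_
  show (∫ y : ℕ → ℝ, (1 + VR a z + VL b y) ^ (-p) ∂(iid ρ)) ≤
    (∫ y : ℕ → ℝ, (1 + VR (a + 1) z + VL b y) ^ (-p) ∂(iid ρ)) +
      max 1 p * Real.exp (-u * H z 0 (a + 1))
  have hc : ∫ _ : ℕ → ℝ, max 1 p * Real.exp (-u * H z 0 (a + 1)) ∂(iid ρ) =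
      max 1 p * Real.exp (-u * H z 0 (a + 1)) := by simp
  rw [← hc, ← integral_add (wb_iint ρ (a + 1) b z hp) (integrable_const _)]
  refine integral_mono (wb_iint ρ a b z hp)
    ((wb_iint ρ (a + 1) b z hp).add (integrable_const _)) fun y => ?_
  have h1 := rpow_diff_le (V := 1 + VR a z + VL b y) (b := Real.exp (-H z 0 (a + 1))) (q := p)
    (u := u) (wb_q1 a b z y) (Real.exp_pos _) hp hu1 hu0
  have h2 : Real.exp (-H z 0 (a + 1)) ^ u = Real.exp (-u * H z 0 (a + 1)) := by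
    rw [← Real.exp_mul]
    congr 1
    ring
  rw [h2] at h1
  have h3 : 1 + VR (a + 1) z + VL b y = 1 + VR a z + VL b y + Real.exp (-H z 0 (a + 1)) := by
    rw [VR_succ]
    ring
  show (1 + VR a z + VL b y) ^ (-p) ≤ (1 + VR (a + 1) z + VL b y) ^ (-p) + _
  rw [h3]
  linarith

/-- one more increment outside -/
lemma qc_b (ρ : Measure ℝ) [IsProbabilityMeasure ρ]
    (hρ : ∀ t : ℝ, Integrable (fun z => Real.exp (t * z)) ρ) (θ p u : ℝ) (a b : ℕ) (hp : 0 ≤ p)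
    (hu0 : 0 < u) (hu1 : u ≤ 1) :
    QQ ρ θ p a b ≤ QQ ρ θ p a (b + 1) + max 1 p * Mo ρ u ^ (b + 1) := by
  haveI : IsProbabilityMeasure (ρ.tilted fun t => θ * t) := isProbabilityMeasure_tilted (hρ θ)
  obtain ⟨hi, he⟩ := integrable_expH ρ hρ u (b + 1)
  unfold QQ
  have hc : ∫ _ : ℕ → ℝ, max 1 p * Mo ρ u ^ (b + 1) ∂(iid (ρ.tilted fun t => θ * t)) =
      max 1 p * Mo ρ u ^ (b + 1) := by simp
  rw [← hc, ← integral_add (wb_oint ρ _ a (b + 1) hp) (integrable_const _)]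
  refine integral_mono (wb_oint ρ _ a b hp) ((wb_oint ρ _ a (b + 1) hp).add (integrable_const _))
    fun z => ?_
  show (∫ y : ℕ → ℝ, (1 + VR a z + VL b y) ^ (-p) ∂(iid ρ)) ≤
    (∫ y : ℕ → ℝ, (1 + VR a z + VL (b + 1) y) ^ (-p) ∂(iid ρ)) + max 1 p * Mo ρ u ^ (b + 1)
  rw [← he, ← integral_const_mul, ← integral_add (wb_iint ρ a (b + 1) z hp) (hi.const_mul _)]
  refine integral_mono (wb_iint ρ a b z hp)
    ((wb_iint ρ a (b + 1) z hp).add (hi.const_mul _)) fun y => ?_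
  have h1 := rpow_diff_le (V := 1 + VR a z + VL b y) (b := Real.exp (H y 0 (b + 1))) (q := p)
    (u := u) (wb_q1 a b z y) (Real.exp_pos _) hp hu1 hu0
  have h2 : Real.exp (H y 0 (b + 1)) ^ u = Real.exp (u * H y 0 (b + 1)) := by
    rw [← Real.exp_mul]
    congr 1
    ring
  rw [h2] at h1
  have h3 : 1 + VR a z + VL (b + 1) y = 1 + VR a z + VL b y + Real.exp (H y 0 (b + 1)) := by
    rw [qc_VL]
    ring
  show (1 + VR a z + VL b y) ^ (-p) ≤ (1 + VR a z + VL (b + 1) y) ^ (-p) + _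
  rw [h3]
  linarith

theorem pf_QCV (_hWBA : T_WBA) : T_QCV := by
  intro ρ _ hρ θ p u a a' b b' hp hu0 hu1 ha hb
  have h1 : ∀ n, QQ ρ θ p a b ≤ QQ ρ θ p (a + n) b + max 1 p *
      ∑ i ∈ Finset.Ico a (a + n), Mo (ρ.tilted fun t => θ * t) (-u) ^ (i + 1) := by
    intro n
    induction n with
    | zero => simp
    | succ n ih =>
      have h := qc_a ρ hρ θ p u (a + n) b hp hu0 hu1
      rw [← Nat.add_assoc, Finset.sum_Ico_succ_top (Nat.le_add_right a n), mul_add]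
      linarith
  have h2 : ∀ n, QQ ρ θ p a' b ≤ QQ ρ θ p a' (b + n) + max 1 p *
      ∑ i ∈ Finset.Ico b (b + n), Mo ρ u ^ (i + 1) := by
    intro n
    induction n with
    | zero => simp
    | succ n ih =>
      have h := qc_b ρ hρ θ p u a' (b + n) hp hu0 hu1
      rw [← Nat.add_assoc, Finset.sum_Ico_succ_top (Nat.le_add_right b n), mul_add]
      linarith
  have h3 := h1 (a' - a)
  have h4 := h2 (b' - b)
  rw [Nat.add_sub_cancel' ha] at h3
  rw [Nat.add_sub_cancel' hb] at h4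
  rw [mul_add]
  linarith

end Pool.Agent.H92.EX
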