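import Pool.Agent.H92.EX.Defs

/-!
# MP_34b97f_an: targets of the modules (board ex_modules)
-/

open MeasureTheory ProbabilityTheory Filter Topology Finset
open scoped ENNReal

universe u

namespace Pool.Agent.H92.EX

open Pool.Agent.H89.MT

/-! ## Number theory -/

/-- (XCM) complete multiplicativity -/
def T_CM : Prop := ∀ x : ℕ → Bool,
  (∀ m n : ℕ, 0 < m → 0 < n → (cm x (m * n) : ℝ) = cm x m * cm x n) ∧
  (cm x 1 : ℝ) = 1 ∧ (∀ n, |(cm x n : ℝ)| = 1) ∧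
  ∀ j : ℕ, (cm x (Nat.nth Nat.Prime j) : ℝ) = sg (x j)

/-- (XDEC) decomposition of the logarithmic correlation with respect to the largest prime -/
def T_DEC : Prop := ∀ H : Finset ℕ, H.Nonempty → ∃ C : ℝ, 0 < C ∧ ∀ (x : ℕ → Bool) (N k L : ℕ),
  3 ≤ N → N + H.sup id + 1 ≤ L →
  |lavg N (corr (cm x) H) - ∑ j ∈ Ico k L, sg (x j) * Y N H j x| ≤
    C * (1 / (Nat.nth Nat.Prime k : ℝ) + (1 + Real.log (Nat.nth Nat.Prime k)) / Real.log N)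

/-- (XYB) bound for the coefficients -/
def T_YB : Prop := ∀ H : Finset ℕ, ∃ C : ℝ, 0 < C ∧ ∀ (N j : ℕ) (x : ℕ → Bool), 3 ≤ N →
  |Y N H j x| ≤ C / (Nat.nth Nat.Prime j : ℝ)

/-- (XDEP) the coefficient of a prime depends only on the signs of the smaller primes -/
def T_DEP : Prop := ∀ (N : ℕ) (H : Finset ℕ) (j : ℕ) (x y : ℕ → Bool), (∀ i < j, x i = y i) →
  Y N H j x = Y N H j y

/-- (XCHB) Chebyshev bounds for the primes -/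
def T_CHB : Prop := (∃ c : ℝ, 0 < c ∧ ∀ j : ℕ, c * ((j : ℝ) + 1) * Real.log ((j : ℝ) + 2) ≤
    (Nat.nth Nat.Prime j : ℝ)) ∧
  ∃ C : ℝ, 0 < C ∧ ∀ j : ℕ, Real.log (Nat.nth Nat.Prime j) ≤ C * Real.log ((j : ℝ) + 2)

/-- (XBLK) a large correlation forces a large block sum -/
def T_BLK : Prop := ∀ H : Finset ℕ, H.Nonempty → ∀ ε : ℝ, 0 < ε →
  ∃ (C θ : ℝ) (K N₀ : ℕ), 0 < C ∧ 0 < θ ∧
    (∀ (i N j : ℕ) (x : ℕ → Bool), 3 ≤ N → j ∈ Ico (2 ^ i) (2 ^ (i + 1)) →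
      |Y N H j x| ≤ C / (2 ^ i * ((i : ℝ) + 1))) ∧
    ∀ N : ℕ, N₀ ≤ N → ∀ x : ℕ → Bool, ε ≤ |lavg N (corr (cm x) H)| →
      ∃ i : ℕ, N ≤ 2 ^ (K * i) ∧
        θ * (C / ((i : ℝ) + 1)) < |∑ j ∈ Ico (2 ^ i) (2 ^ (i + 1)), sg (x j) * Y N H j x|

/-! ## Counting and dimension -/

/-- (XAZU) large deviations for sums with predictable coefficients, in the cube -/
def T_AZU : Prop := ∀ (n : ℕ) (Z : ℕ → (ℕ → Bool) → ℝ) (c lam : ℝ) (B : Finset ℕ),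
  (∀ j x y, (∀ i < j, x i = y i) → Z j x = Z j y) → 0 < c → 0 < lam → (∀ j ∈ B, j < n) →
  (∀ j ∈ B, ∀ x, |Z j x| ≤ c) → B.Nonempty →
  (Fintype.card {w : Fin n → Bool // lam < |∑ j ∈ B, sg (ext w j) * Z j (ext w)|} : ℝ) ≤
    2 * 2 ^ n * Real.exp (-(lam ^ 2 / (2 * B.card * c ^ 2)))

/-- (XHDF) an upper bound for the Hausdorff dimension of a limit superior of unions of cylinders -/
def T_HDF : Prop := ∀ (E : Set (ℕ → Bool)) (s : NNReal) (n : ℕ → ℕ)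
  (B : ∀ i : ℕ, Set (Fin (n i) → Bool)),
  (∀ x ∈ E, ∃ᶠ i in atTop, (fun k : Fin (n i) => x k) ∈ B i) → Tendsto n atTop atTop →
  Summable (fun i => (Nat.card (B i) : ℝ) * (1 / 2 : ℝ) ^ ((s : ℝ) * n i)) → dimB E ≤ s

/-- (XDIM) the exceptional sets have dimension smaller than one -/
def T_DIM : Prop := ∀ (H : Finset ℕ), H.Nonempty → ∀ ε : ℝ, 0 < ε → dimB (Exc H ε) < 1

/-- (XGAU) gauge functions -/
def T_GAU : Prop := ∀ (E : ℕ → Set (ℕ → Bool)), (∀ m, dimB (E m) < 1) →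
  ∀ g : ℝ≥0∞ → ℝ≥0∞, (∀ s : ℝ, 0 < s → s < 1 → ∀ᶠ t in 𝓝 0, g t ≤ t ^ s) →
  gaugeB g (⋃ m, E m) = 0

/-! ## Dependent signs -/

/-- (XMSQ) second moment of sums of predictable multiples of centred signs -/
def T_MSQ : Prop := ∀ (Ω : Type u) [MeasurableSpace Ω] (P : Measure Ω) [IsProbabilityMeasure P]
  (ξ : Ω → ℕ → Bool), (∀ j, Measurable fun ω => ξ ω j) →
  ∀ (Z : ℕ → (ℕ → Bool) → ℝ) (c : ℕ → ℝ) (B : Finset ℕ),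
  (∀ j x y, (∀ i < j, x i = y i) → Z j x = Z j y) → (∀ j x, |Z j x| ≤ c j) →
  (∀ j, Measurable fun ω => Z j (ξ ω)) ∧
  ∫ ω, (∑ j ∈ B, (sg (ξ ω j) - (P[fun ω' => sg (ξ ω' j) | fil ξ j]) ω) * Z j (ξ ω)) ^ 2 ∂P ≤
    4 * ∑ j ∈ B, c j ^ 2

/-- (XDAS) almost sure vanishing of the correlations -/
def T_DAS : Prop := ∀ (Ω : Type u) [MeasurableSpace Ω] (P : Measure Ω) [IsProbabilityMeasure P]
  (ξ : Ω → ℕ → Bool), (∀ j, Measurable fun ω => ξ ω j) →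
  (∀ η : ℝ, 0 < η → η < 1 → ∀ᵐ ω ∂P, Tendsto (fun N : ℕ =>
    ∑ j ∈ (range N).filter (fun j => (N : ℝ) ^ η < (Nat.nth Nat.Prime j : ℝ) ∧
      Nat.nth Nat.Prime j ≤ N), bias P ξ j ω / (Nat.nth Nat.Prime j : ℝ)) atTop (𝓝 0)) →
  ∀ H : Finset ℕ, H.Nonempty →
  ∀ᵐ ω ∂P, Tendsto (fun N => lavg N (corr (cm (ξ ω)) H)) atTop (𝓝 0)

/-! ## The theorem -/

/-- (MAIN) -/
def T_MAIN : Prop :=
  (∀ (H : Finset ℕ), H.Nonempty → ∀ ε : ℝ, 0 < ε → dimB (Exc H ε) < 1) ∧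
  (∃ E : ℕ → Set (ℕ → Bool), (∀ m, dimB (E m) < 1) ∧
    ∀ x, x ∉ ⋃ m, E m → Generic (cm x) bern ∧ ∀ κ : Measure X, QuasiGeneric (cm x) κ ↔ κ = bern) ∧
  (∀ g : ℝ≥0∞ → ℝ≥0∞, (∀ s : ℝ, 0 < s → s < 1 → ∀ᶠ t in 𝓝 0, g t ≤ t ^ s) →
    gaugeB g {x | ¬ (Generic (cm x) bern ∧ ∀ κ : Measure X, QuasiGeneric (cm x) κ ↔ κ = bern)} =
      0) ∧
  ∀ (Ω : Type u) [MeasurableSpace Ω] (P : Measure Ω) [IsProbabilityMeasure P]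
    (ξ : Ω → ℕ → Bool), (∀ j, Measurable fun ω => ξ ω j) →
    (∀ η : ℝ, 0 < η → η < 1 → ∀ᵐ ω ∂P, Tendsto (fun N : ℕ =>
      ∑ j ∈ (range N).filter (fun j => (N : ℝ) ^ η < (Nat.nth Nat.Prime j : ℝ) ∧
        Nat.nth Nat.Prime j ≤ N), bias P ξ j ω / (Nat.nth Nat.Prime j : ℝ)) atTop (𝓝 0)) →
    ∀ᵐ ω ∂P, Generic (cm (ξ ω)) bern ∧
      ∀ κ : Measure X, QuasiGeneric (cm (ξ ω)) κ ↔ κ = bern

end Pool.Agent.H92.EX
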