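import Pool.Agent.H92.EX.Targets
import Pool.Agent.H92.RR.Targets

/-!
# MP_34b97f_an: from completely multiplicative signs to all real-valued multiplicative functions
-/

open MeasureTheory ProbabilityTheory Filter Topology Finset
open scoped ENNReal

universe u

namespace Pool.Agent.H92.EX

open Pool.Agent.H89.MT Pool.Agent.H92.RR

/-- the signs of a function at the primes: the prime is marked if the value is negative -/
noncomputable def sgseq (u : ℕ → I1) (j : ℕ) : Bool := by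
  classical exact decide ((u (Nat.nth Nat.Prime j) : ℝ) < 0)

/-- (XRAP) real multiplicative functions which pretend to be `1` are rationally almost periodic -/
def T_XRAP : Prop := ∀ u : ℕ → I1, IsMult u →
  BddAbove (Set.range (SS fun p => 1 - (u p : ℝ))) → RAP u

/-- (XPER) if all correlations vanish, then also the correlations with a periodic weight -/
def T_XPER : Prop := ∀ x : ℕ → Bool,
  (∀ H : Finset ℕ, H.Nonempty → Tendsto (fun N => lavg N (corr (cm x) H)) atTop (𝓝 0)) →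
  ∀ H : Finset ℕ, H.Nonempty → ∀ (q : ℕ) (Q : ℤ → ℝ), 0 < q → (∀ m, Q (m + q) = Q m) →
    Tendsto (fun N => lavg N fun n => corr (cm x) H n * Q n) atTop (𝓝 0)

/-- (XMON) monomials of a function which pretends to be `cm x` -/
def T_XMON : Prop := ∀ (u : ℕ → I1) (x : ℕ → Bool), IsMult u →
  BddAbove (Set.range (SS fun p => 1 - |(u p : ℝ)|)) →
  (∀ p, p.Prime → (u p : ℝ) * cm x p = |(u p : ℝ)|) →
  (∀ H : Finset ℕ, H.Nonempty → Tendsto (fun N => lavg N (corr (cm x) H)) atTop (𝓝 0)) →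
  ∀ (H : Finset ℕ) (a : ℕ → ℕ), (∃ h ∈ H, Odd (a h)) →
    Tendsto (fun N => lavg N (mono u H a)) atTop (𝓝 0)

/-- (XDEG) monomials of a function with absolute values of mean value zero -/
def T_XDEG : Prop := ∀ (u : ℕ → I1), IsMult u →
  ¬ BddAbove (Set.range (SS fun p => 1 - |(u p : ℝ)|)) →
  ∀ (H : Finset ℕ) (a : ℕ → ℕ), (∃ h ∈ H, Odd (a h)) →
    Tendsto (fun N => lavg N (mono u H a)) atTop (𝓝 0)

/-- (MAIN2) -/
def T_MAIN2 : Prop :=
  (∀ (H : Finset ℕ), H.Nonempty → ∀ ε : ℝ, 0 < ε → dimB (Exc H ε) < 1) ∧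
  (∃ E : ℕ → Set (ℕ → Bool), (∀ m, dimB (E m) < 1) ∧
    (∀ x, x ∉ ⋃ m, E m → Generic (cm x) bern ∧ ∀ κ : Measure X, QuasiGeneric (cm x) κ ↔ κ = bern) ∧
    ∀ u : ℕ → I1, IsMult u → sgseq u ∉ ⋃ m, E m → ∃ κ : Measure X, Pred u κ ∧ Generic u κ ∧
      ∀ κ' : Measure X, QuasiGeneric u κ' ↔ κ' = κ) ∧
  (∀ g : ℝ≥0∞ → ℝ≥0∞, (∀ s : ℝ, 0 < s → s < 1 → ∀ᶠ t in 𝓝 0, g t ≤ t ^ s) →
    gaugeB g {x | ¬ (Generic (cm x) bern ∧ ∀ u : ℕ → I1, IsMult u → sgseq u = x →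
      ∃ κ : Measure X, Pred u κ ∧ Generic u κ ∧ ∀ κ' : Measure X, QuasiGeneric u κ' ↔ κ' = κ)} =
      0) ∧
  ∀ (Ω : Type u) [MeasurableSpace Ω] (P : Measure Ω) [IsProbabilityMeasure P]
    (ξ : Ω → ℕ → Bool), (∀ j, Measurable fun ω => ξ ω j) →
    (∀ η : ℝ, 0 < η → η < 1 → ∀ᵐ ω ∂P, Tendsto (fun N : ℕ =>
      ∑ j ∈ (range N).filter (fun j => (N : ℝ) ^ η < (Nat.nth Nat.Prime j : ℝ) ∧
        Nat.nth Nat.Prime j ≤ N), bias P ξ j ω / (Nat.nth Nat.Prime j : ℝ)) atTop (𝓝 0)) →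
    ∀ᵐ ω ∂P, Generic (cm (ξ ω)) bern ∧
      ∀ u : ℕ → I1, IsMult u → sgseq u = ξ ω → ∃ κ : Measure X, Pred u κ ∧ Generic u κ ∧
        ∀ κ' : Measure X, QuasiGeneric u κ' ↔ κ' = κ

end Pool.Agent.H92.EX
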