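import Pool.Agent.H92.EX.XCM
import Pool.Agent.H86.MT.DIV
import Pool.Agent.H33.MT.EUL
import Pool.Agent.H33.MT.MERT

/-!
# MP_34b97f_an: decomposition with respect to the largest prime factor
-/

open MeasureTheory ProbabilityTheory Filter Topology Finset

namespace Pool.Agent.H92.EX

open Pool.Agent.H89.MT

theorem PP_pos (H : Finset ℕ) {n : ℕ} (hn : 0 < n) : 0 < PP H n :=
  Finset.prod_pos fun h _ => by omega

theorem le_top {m p : ℕ} (hp : p ∈ m.primeFactors) : p ≤ top m :=
  Finset.le_sup (f := id) hp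

theorem top_mem {m : ℕ} (h : m.primeFactors.Nonempty) : top m ∈ m.primeFactors := by
  unfold top
  obtain ⟨p, hp, hp'⟩ := Finset.exists_mem_eq_sup m.primeFactors h id
  rw [hp']
  exact hp

theorem top_mem' {m : ℕ} (h : 0 < top m) : top m ∈ m.primeFactors := by
  apply top_mem
  by_contra hc
  rw [Finset.not_nonempty_iff_eq_empty] at hc
  unfold top at h
  rw [hc] at h
  simp at h

theorem prime_dvd_PP {H : Finset ℕ} {n p : ℕ} (hp : p.Prime) (h : p ∣ PP H n) :
    ∃ h ∈ H, p ∣ n + h := by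
  unfold PP at h
  exact (Prime.dvd_finsetProd_iff hp.prime _).1 h

/-- a square of a large prime divides one of the factors -/
theorem sq_dvd_PP {H : Finset ℕ} {n p : ℕ} (hp : p.Prime) (hA : H.sup id < p)
    (h : p ^ 2 ∣ PP H n) : ∃ h ∈ H, p ^ 2 ∣ n + h := by
  obtain ⟨a, ha, hpa⟩ := prime_dvd_PP hp ((dvd_pow_self p two_ne_zero).trans h)
  refine ⟨a, ha, ?_⟩
  have h1 : PP H n = (n + a) * ∏ b ∈ H.erase a, (n + b) := by
    unfold PP
    rw [Finset.mul_prod_erase H (fun b => n + b) ha]
  have h2 : ¬ p ∣ ∏ b ∈ H.erase a, (n + b) := by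
    intro hd
    obtain ⟨b, hb, hpb⟩ := (Prime.dvd_finsetProd_iff hp.prime _).1 hd
    rw [Finset.mem_erase] at hb
    have ha' : a ≤ H.sup id := Finset.le_sup (f := id) ha
    have hb' : b ≤ H.sup id := Finset.le_sup (f := id) hb.2
    rcases lt_or_gt_of_ne hb.1 with hlt | hlt
    · have h3 : p ∣ a - b := by
        have := Nat.dvd_sub hpa hpb
        rwa [Nat.add_sub_add_left] at this
      have := Nat.le_of_dvd (by omega) h3
      omega
    · have h3 : p ∣ b - a := by
        have := Nat.dvd_sub hpb hpa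
        rwa [Nat.add_sub_add_left] at this
      have := Nat.le_of_dvd (by omega) h3
      omega
  rw [h1] at h
  exact (Nat.Coprime.dvd_of_dvd_mul_right
    (((Nat.Prime.coprime_iff_not_dvd hp).2 h2).pow_left 2) h)

theorem log_ge_one {N : ℕ} (hN : 3 ≤ N) : 1 ≤ Real.log N := by
  rw [Real.le_log_iff_exp_le (by positivity)]
  have h1 := Real.exp_one_lt_d9
  have h2 : (3 : ℝ) ≤ N := by exact_mod_cast hN
  linarith

theorem log_add_le {N : ℕ} (hN : 3 ≤ N) (h : ℕ) :
    1 + Real.log ((N : ℝ) + h) ≤ (2 + h) * Real.log N := by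
  have h0 : (3 : ℝ) ≤ N := by exact_mod_cast hN
  have h1 : (N : ℝ) + h ≤ N * (1 + h) := by
    have : (0 : ℝ) ≤ h := Nat.cast_nonneg h
    nlinarith
  have h2 : Real.log ((N : ℝ) + h) ≤ Real.log N + Real.log (1 + h) := by
    rw [← Real.log_mul (by positivity) (by positivity)]
    exact Real.log_le_log (by positivity) h1
  have h3 : Real.log (1 + (h : ℝ)) ≤ h := by
    have := Real.log_le_sub_one_of_pos (x := 1 + (h : ℝ)) (by positivity)
    linarith
  have h4 := log_ge_one hN
  have : (0 : ℝ) ≤ h := Nat.cast_nonneg h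
  nlinarith

/-- harmonic sums over multiples -/
theorem sum_dvd_le {N : ℕ} (hN : 3 ≤ N) (h d : ℕ) (hd : 1 ≤ d) :
    ∑ n ∈ Icc 1 N with d ∣ n + h, (1 : ℝ) / n ≤ ((h : ℝ) + 1) * (2 + h) / d * Real.log N := by
  refine (Pool.Agent.H86.MT.pf_DIV h d N hd).trans ?_
  have h1 := log_add_le hN h
  have hd' : (0 : ℝ) < d := by exact_mod_cast hd
  calc ((h : ℝ) + 1) / d * (1 + Real.log ((N : ℝ) + h))
      ≤ ((h : ℝ) + 1) / d * ((2 + h) * Real.log N) :=
        mul_le_mul_of_nonneg_left h1 (by positivity)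
    _ = _ := by ring

theorem sum_inv_sq_le (S : Finset ℕ) (a : ℕ) (ha : 1 ≤ a) (hS : ∀ q ∈ S, a ≤ q) :
    ∑ q ∈ S, (1 : ℝ) / (q : ℝ) ^ 2 ≤ 2 / a := by
  have h1 := sum_Ioo_inv_sq_le (α := ℝ) (a - 1) (S.sup id + 1)
  have h2 : ((a - 1 : ℕ) : ℝ) + 1 = a := by
    rw [Nat.cast_sub ha]
    push_cast
    ring
  rw [h2] at h1
  refine le_trans ?_ h1
  have h3 : S ⊆ Ioo (a - 1) (S.sup id + 1) := by
    intro q hq
    rw [mem_Ioo]
    have h4 := hS q hq
    have h5 : q ≤ S.sup id := Finset.le_sup (f := id) hq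
    omega
  calc ∑ q ∈ S, (1 : ℝ) / (q : ℝ) ^ 2 = ∑ q ∈ S, (((q : ℝ)) ^ 2)⁻¹ :=
        Finset.sum_congr rfl fun q _ => one_div _
    _ ≤ _ := Finset.sum_le_sum_of_subset_of_nonneg h3 fun _ _ _ => by positivity

theorem sum_biUnion_le {ι : Type*} [DecidableEq ι] (S : Finset ι) (t : ι → Finset ℕ) (f : ℕ → ℝ)
    (hf : ∀ n, 0 ≤ f n) : ∑ n ∈ S.biUnion t, f n ≤ ∑ i ∈ S, ∑ n ∈ t i, f n := by
  classical
  induction S using Finset.induction_on with
  | empty => simp
  | insert a S ha ih =>
    rw [Finset.biUnion_insert, Finset.sum_insert ha]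
    have h1 := Finset.sum_union_inter (s₁ := t a) (s₂ := S.biUnion t) (f := f)
    have h2 : 0 ≤ ∑ n ∈ t a ∩ S.biUnion t, f n := Finset.sum_nonneg fun n _ => hf n
    linarith

theorem sum_union_le' (s t : Finset ℕ) (f : ℕ → ℝ) (hf : ∀ n, 0 ≤ f n) :
    ∑ n ∈ s ∪ t, f n ≤ ∑ n ∈ s, f n + ∑ n ∈ t, f n := by
  have h1 := Finset.sum_union_inter (s₁ := s) (s₂ := t) (f := f)
  have h2 : 0 ≤ ∑ n ∈ s ∩ t, f n := Finset.sum_nonneg fun n _ => hf n
  linarith

/-- numbers without prime factor `≥ z` -/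
noncomputable def smo (z n : ℕ) : ℝ := if ∀ p ∈ n.primeFactors, p < z then 1 else 0

theorem smo_nonneg (z n : ℕ) : 0 ≤ smo z n := by
  unfold smo
  split_ifs <;> norm_num

theorem smo_le_one (z n : ℕ) : smo z n ≤ 1 := by
  unfold smo
  split_ifs <;> norm_num

theorem sum_smo_le : ∃ C : ℝ, 0 < C ∧ ∀ z M : ℕ, 2 ≤ z →
    ∑ n ∈ Icc 1 M, smo z n / n ≤ C * (1 + Real.log z) := by
  obtain ⟨C, hC⟩ := Pool.Agent.H33.MT.pf_MERT
  refine ⟨Real.exp (|C| + 3), Real.exp_pos _, fun z M hz => ?_⟩
  have h1 := Pool.Agent.H33.MT.pf_EUL (smo z) (smo_nonneg z) (smo_le_one z) (by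
    intro m n hm hn _
    unfold smo
    rw [Nat.primeFactors_mul hm.ne' hn.ne']
    by_cases h1 : ∀ p ∈ m.primeFactors, p < z
    · by_cases h2 : ∀ p ∈ n.primeFactors, p < z
      · rw [if_pos h1, if_pos h2, if_pos, one_mul]
        intro p hp
        rcases Finset.mem_union.1 hp with h | h
        · exact h1 p h
        · exact h2 p h
      · rw [if_neg h2, mul_zero, if_neg]
        intro h
        exact h2 fun p hp => h p (Finset.mem_union_right _ hp)
    · rw [if_neg h1, zero_mul, if_neg]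
      intro h
      exact h1 fun p hp => h p (Finset.mem_union_left _ hp)) M
  refine h1.trans ?_
  have hlz : 0 ≤ Real.log z := Real.log_natCast_nonneg z
  have h2 : SS (smo z) M ≤ SS (fun _ => 1) z := by
    unfold SS
    calc ∑ p ∈ pr M, smo z p / p = ∑ p ∈ (pr M).filter (· < z), smo z p / p := by
          symm
          apply Finset.sum_subset (Finset.filter_subset _ _)
          intro p hp hp'
          rw [mem_filter] at hp'
          push Not at hp'
          have hpp : p.Prime := (mem_filter.1 hp).2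
          have : smo z p = 0 := by
            unfold smo
            rw [if_neg]
            intro h
            have := h p (by rw [hpp.primeFactors]; exact mem_singleton_self p)
            have := hp' hp
            omega
          rw [this, zero_div]
      _ ≤ ∑ p ∈ (pr M).filter (· < z), 1 / (p : ℝ) := by
          apply Finset.sum_le_sum
          intro p _
          exact div_le_div_of_nonneg_right (smo_le_one z p) (Nat.cast_nonneg _)
      _ ≤ ∑ p ∈ pr z, 1 / (p : ℝ) := by
          apply Finset.sum_le_sum_of_subset_of_nonneg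
          · intro p hp
            unfold pr at hp ⊢
            rw [mem_filter, mem_filter, mem_Icc] at hp
            rw [mem_filter, mem_Icc]
            exact ⟨⟨hp.1.1.1, hp.2.le⟩, hp.1.2⟩
          · intro _ _ _
            positivity
  rcases Nat.lt_or_ge z 3 with hz3 | hz3
  · have hz2 : z = 2 := by omega
    subst hz2
    have h3 : SS (fun _ => 1) 2 ≤ 2 := by
      unfold SS
      calc ∑ p ∈ pr 2, (1 : ℝ) / (p : ℕ) ≤ ∑ p ∈ (Icc 1 2 : Finset ℕ), (1 : ℝ) / (p : ℕ) := by
            apply Finset.sum_le_sum_of_subset_of_nonneg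
            · exact Finset.filter_subset _ _
            · intro _ _ _
              positivity
        _ ≤ 2 := by
            rw [show (Icc 1 2 : Finset ℕ) = {1, 2} from rfl, Finset.sum_pair (by norm_num)]
            norm_num
    calc Real.exp (SS (smo 2) M + 1) ≤ Real.exp (|C| + 3) := by
          apply Real.exp_le_exp.2
          have := abs_nonneg C
          linarith
      _ = Real.exp (|C| + 3) * 1 := (mul_one _).symm
      _ ≤ _ := by
          apply mul_le_mul_of_nonneg_left _ (Real.exp_pos _).le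
          linarith
  · have h3 := hC z hz3
    have h4 := log_ge_one hz3
    calc Real.exp (SS (smo z) M + 1) ≤ Real.exp ((|C| + 3) + Real.log (Real.log z)) := by
          apply Real.exp_le_exp.2
          have := le_abs_self C
          linarith
      _ = Real.exp (|C| + 3) * Real.log z := by
          rw [Real.exp_add, Real.exp_log (by linarith)]
      _ ≤ _ := by
          apply mul_le_mul_of_nonneg_left _ (Real.exp_pos _).le
          linarith

/-- the numbers `n` for which `n + h` has no prime factor `≥ z` -/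
theorem sum_shift_smo_le (h : ℕ) : ∃ C : ℝ, 0 < C ∧ ∀ z N : ℕ, 2 ≤ z →
    ∑ n ∈ Icc 1 N, smo z (n + h) / n ≤ C * (1 + Real.log z) := by
  obtain ⟨C, hC0, hC⟩ := sum_smo_le
  refine ⟨(h + 1) * C, by positivity, fun z N hz => ?_⟩
  have h1 : ∀ n ∈ Icc 1 N, smo z (n + h) / n ≤ (h + 1) * (smo z (n + h) / ((n + h : ℕ) : ℝ)) := by
    intro n hn
    have hn1 : (1 : ℝ) ≤ n := by exact_mod_cast (mem_Icc.1 hn).1
    have hh : (0 : ℝ) ≤ h := Nat.cast_nonneg h
    have hnh : (0 : ℝ) < ((n + h : ℕ) : ℝ) := by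
      push_cast
      linarith
    rw [← mul_div_assoc, div_le_div_iff₀ (by linarith) hnh]
    have h2 := smo_nonneg z (n + h)
    push_cast
    have h3 : (n : ℝ) + h ≤ (h + 1) * n := by nlinarith
    calc smo z (n + h) * (n + h) ≤ smo z (n + h) * ((h + 1) * n) :=
          mul_le_mul_of_nonneg_left h3 h2
      _ = _ := by ring
  calc ∑ n ∈ Icc 1 N, smo z (n + h) / n
      ≤ ∑ n ∈ Icc 1 N, (h + 1) * (smo z (n + h) / ((n + h : ℕ) : ℝ)) := Finset.sum_le_sum h1
    _ = (h + 1) * ∑ n ∈ Icc 1 N, smo z (n + h) / ((n + h : ℕ) : ℝ) := by rw [Finset.mul_sum]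
    _ ≤ (h + 1) * ∑ m ∈ Icc 1 (N + h), smo z m / m := by
        apply mul_le_mul_of_nonneg_left _ (by positivity)
        have e : ∑ n ∈ Icc 1 N, smo z (n + h) / ((n + h : ℕ) : ℝ) =
            ∑ m ∈ (Icc 1 N).map ⟨(· + h), add_left_injective h⟩, smo z m / (m : ℝ) := by
          rw [Finset.sum_map]
          rfl
        rw [e]
        apply Finset.sum_le_sum_of_subset_of_nonneg
        · intro m hm
          rw [Finset.mem_map] at hm
          obtain ⟨n, hn, rfl⟩ := hm
          rw [mem_Icc] at hn ⊢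
          show 1 ≤ n + h ∧ n + h ≤ N + h
          omega
        · intro _ _ _
          exact div_nonneg (smo_nonneg _ _) (Nat.cast_nonneg _)
    _ ≤ (h + 1) * (C * (1 + Real.log z)) :=
        mul_le_mul_of_nonneg_left (hC z (N + h) hz) (by positivity)
    _ = _ := by ring

theorem nth_prime (j : ℕ) : (Nat.nth Nat.Prime j).Prime := Nat.prime_nth_prime j

theorem nth_inj {i j : ℕ} (h : Nat.nth Nat.Prime i = Nat.nth Nat.Prime j) : i = j :=
  (Nat.nth_strictMono Nat.infinite_setOfPred_prime).injective h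

theorem nth_count {p : ℕ} (hp : p.Prime) : Nat.nth Nat.Prime (Nat.count Nat.Prime p) = p :=
  Nat.nth_count hp

theorem count_le_self (p : ℕ) : Nat.count Nat.Prime p ≤ p := Nat.count_le _

theorem pf_DEC : T_DEC := by
  classical
  intro H hH
  obtain ⟨h₀, hh₀⟩ := hH
  obtain ⟨C₁, hC₁, hC₁'⟩ := sum_shift_smo_le h₀
  set A : ℕ := H.sup id with hA
  set C₂ : ℝ := ∑ h ∈ H, ((h : ℝ) + 1) * (2 + h) with hC₂
  have hC₂0 : 0 ≤ C₂ := Finset.sum_nonneg fun h _ => by positivity
  refine ⟨C₁ + 2 * C₂ + 2 * A + 1, by positivity, fun x N k L hN hL => ?_⟩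
  have hlN := log_ge_one hN
  have hlN0 : 0 < Real.log N := by linarith
  set q := Nat.nth Nat.Prime k with hq
  have hqp : q.Prime := nth_prime k
  have hq0 : (0 : ℝ) < q := by exact_mod_cast hqp.pos
  have hlq : 0 ≤ Real.log q := Real.log_natCast_nonneg q
  let T : ℕ → Finset ℕ := fun j => (Icc 1 N).filter (fun n =>
    top (PP H n) = Nat.nth Nat.Prime j ∧ ¬ (Nat.nth Nat.Prime j) ^ 2 ∣ PP H n)
  let G : Finset ℕ := (Ico k L).biUnion T
  have hGsub : G ⊆ Icc 1 N := by
    intro n hn
    obtain ⟨j, _, hj⟩ := Finset.mem_biUnion.1 hn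
    exact (mem_filter.1 hj).1
  -- the sum over the good numbers
  have hgood : ∑ j ∈ Ico k L, sg (x j) * Y N H j x =
      (∑ n ∈ G, (corr (cm x) H n) / n) / Real.log N := by
    have e1 : ∀ j ∈ Ico k L, sg (x j) * Y N H j x =
        (∑ n ∈ T j, (corr (cm x) H n) / n) / Real.log N := by
      intro j _
      unfold Y
      rw [← mul_div_assoc, Finset.mul_sum]
      congr 1
      refine Finset.sum_congr rfl fun n hn => ?_
      obtain ⟨hn1, hn2, hn3⟩ := mem_filter.1 hn
      have hn0 : 0 < n := (mem_Icc.1 hn1).1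
      have hd : Nat.nth Nat.Prime j ∣ PP H n := by
        rw [← hn2]
        exact (Nat.mem_primeFactors.1 (top_mem' (by rw [hn2]; exact (nth_prime j).pos))).2.1
      obtain ⟨m, hm⟩ := hd
      have hm0 : 0 < m := by
        rcases Nat.eq_zero_or_pos m with h | h
        · rw [h, mul_zero] at hm
          have := PP_pos H hn0
          omega
        · exact h
      rw [← cm_prod x H n hn0, hm, Nat.mul_div_cancel_left _ (nth_prime j).pos,
        cm_mul x (nth_prime j).pos hm0, cm_nth]
      ring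
    rw [Finset.sum_congr rfl e1, ← Finset.sum_div, Finset.sum_biUnion]
    intro i _ j _ hij
    refine Finset.disjoint_left.2 fun n hn hn' => hij ?_
    have h1 := (mem_filter.1 hn).2.1
    have h2 := (mem_filter.1 hn').2.1
    exact nth_inj (h1.symm.trans h2)
  have hdiff : lavg N (corr (cm x) H) - ∑ j ∈ Ico k L, sg (x j) * Y N H j x =
      (∑ n ∈ Icc 1 N \ G, (corr (cm x) H n) / n) / Real.log N := by
    rw [hgood]
    unfold lavg
    rw [← sub_div, ← Finset.sum_sdiff hGsub, add_sub_cancel_right]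
  have hbound : |lavg N (corr (cm x) H) - ∑ j ∈ Ico k L, sg (x j) * Y N H j x| ≤
      (∑ n ∈ Icc 1 N \ G, (1 : ℝ) / n) / Real.log N := by
    rw [hdiff, abs_div, abs_of_pos hlN0]
    refine div_le_div_of_nonneg_right ?_ hlN0.le
    refine (Finset.abs_sum_le_sum_abs _ _).trans (Finset.sum_le_sum fun n _ => ?_)
    rw [abs_div, Nat.abs_cast]
    refine div_le_div_of_nonneg_right ?_ (Nat.cast_nonneg _)
    unfold corr
    rw [Finset.abs_prod]
    exact (Finset.prod_eq_one fun h _ => abs_cm' x _).le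
  refine hbound.trans ?_
  rw [div_le_iff₀ hlN0]
  have hmain : (C₁ + 2 * C₂ + 2 * A + 1) * (1 / (q : ℝ) + (1 + Real.log q) / Real.log N) *
      Real.log N = (C₁ + 2 * C₂ + 2 * A + 1) * (Real.log N / q + (1 + Real.log q)) := by
    field_simp
  rw [hmain]
  have hdom : 0 ≤ Real.log N / q := by positivity
  by_cases hAq : A < q
  · -- large primes
    let Q : Finset ℕ := (Icc q (N + A)).filter Nat.Prime
    have hcov : Icc 1 N \ G ⊆ ((Icc 1 N).filter fun n => smo q (n + h₀) = 1) ∪
        Q.biUnion fun p => H.biUnion fun h => (Icc 1 N).filter fun n => p ^ 2 ∣ n + h := by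
      intro n hn
      rw [Finset.mem_sdiff] at hn
      obtain ⟨hn1, hn2⟩ := hn
      have hn0 : 0 < n := (mem_Icc.1 hn1).1
      have hnN : n ≤ N := (mem_Icc.1 hn1).2
      rw [Finset.mem_union]
      by_cases htop : top (PP H n) < q
      · left
        rw [mem_filter]
        refine ⟨hn1, ?_⟩
        unfold smo
        rw [if_pos]
        intro p hp
        rw [Nat.mem_primeFactors] at hp
        refine lt_of_le_of_lt (le_top ?_) htop
        rw [Nat.mem_primeFactors]
        refine ⟨hp.1, hp.2.1.trans ?_, (PP_pos H hn0).ne'⟩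
        unfold PP
        exact Finset.dvd_prod_of_mem _ hh₀
      · right
        rw [not_lt] at htop
        have htm := top_mem' (m := PP H n) (lt_of_lt_of_le hqp.pos htop)
        rw [Nat.mem_primeFactors] at htm
        obtain ⟨htp, htd, -⟩ := htm
        obtain ⟨h, hh, hdh⟩ := prime_dvd_PP htp htd
        have hhA : h ≤ A := Finset.le_sup (f := id) hh
        have hle : top (PP H n) ≤ N + A := by
          have := Nat.le_of_dvd (by omega) hdh
          omega
        have hsq : top (PP H n) ^ 2 ∣ PP H n := by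
          by_contra hns
          refine hn2 (Finset.mem_biUnion.2 ⟨Nat.count Nat.Prime (top (PP H n)), ?_, ?_⟩)
          · rw [mem_Ico]
            constructor
            · have h1 : Nat.count Nat.Prime q ≤ Nat.count Nat.Prime (top (PP H n)) :=
                Nat.count_monotone _ htop
              rwa [hq, Nat.count_nth_of_infinite Nat.infinite_setOfPred_prime] at h1
            · have := count_le_self (top (PP H n))
              omega
          · rw [mem_filter, nth_count htp]
            exact ⟨hn1, rfl, hns⟩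
        obtain ⟨b, hb, hbd⟩ := sq_dvd_PP htp (lt_of_lt_of_le hAq htop) hsq
        rw [Finset.mem_biUnion]
        refine ⟨top (PP H n), ?_, ?_⟩
        · rw [mem_filter, mem_Icc]
          exact ⟨⟨htop, hle⟩, htp⟩
        · rw [Finset.mem_biUnion]
          exact ⟨b, hb, mem_filter.2 ⟨hn1, hbd⟩⟩
    have hnn : ∀ n : ℕ, 0 ≤ (1 : ℝ) / n := fun n => by positivity
    have h1 : ∑ n ∈ (Icc 1 N).filter (fun n => smo q (n + h₀) = 1), (1 : ℝ) / n ≤
        C₁ * (1 + Real.log q) := by
      refine le_trans ?_ (hC₁' q N hqp.two_le)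
      calc ∑ n ∈ (Icc 1 N).filter (fun n => smo q (n + h₀) = 1), (1 : ℝ) / n
          = ∑ n ∈ (Icc 1 N).filter (fun n => smo q (n + h₀) = 1), smo q (n + h₀) / n := by
            refine Finset.sum_congr rfl fun n hn => ?_
            rw [(mem_filter.1 hn).2]
        _ ≤ _ := by
            apply Finset.sum_le_sum_of_subset_of_nonneg (Finset.filter_subset _ _)
            intro n _ _
            exact div_nonneg (smo_nonneg _ _) (Nat.cast_nonneg _)
    have h2 : ∑ n ∈ Q.biUnion (fun p => H.biUnion fun h =>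
        (Icc 1 N).filter fun n => p ^ 2 ∣ n + h), (1 : ℝ) / n ≤ 2 * C₂ * (Real.log N / q) := by
      calc ∑ n ∈ Q.biUnion (fun p => H.biUnion fun h =>
            (Icc 1 N).filter fun n => p ^ 2 ∣ n + h), (1 : ℝ) / n
          ≤ ∑ p ∈ Q, ∑ n ∈ H.biUnion (fun h => (Icc 1 N).filter fun n => p ^ 2 ∣ n + h),
              (1 : ℝ) / n := sum_biUnion_le _ _ _ hnn
        _ ≤ ∑ p ∈ Q, ∑ h ∈ H, ∑ n ∈ (Icc 1 N).filter (fun n => p ^ 2 ∣ n + h), (1 : ℝ) / n :=
            Finset.sum_le_sum fun p _ => sum_biUnion_le _ _ _ hnn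
        _ ≤ ∑ p ∈ Q, ∑ h ∈ H, ((h : ℝ) + 1) * (2 + h) * ((1 / (p : ℝ) ^ 2) * Real.log N) := by
            refine Finset.sum_le_sum fun p hp => Finset.sum_le_sum fun h _ => ?_
            have hpp : p.Prime := (mem_filter.1 hp).2
            refine (sum_dvd_le hN h (p ^ 2) (Nat.one_le_pow _ _ hpp.pos)).trans (le_of_eq ?_)
            push_cast
            ring
        _ = C₂ * Real.log N * ∑ p ∈ Q, (1 : ℝ) / (p : ℝ) ^ 2 := by
            rw [hC₂, Finset.mul_sum]
            refine Finset.sum_congr rfl fun p _ => ?_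
            rw [← Finset.sum_mul]
            ring
        _ ≤ C₂ * Real.log N * (2 / q) := by
            apply mul_le_mul_of_nonneg_left _ (by positivity)
            exact sum_inv_sq_le Q q hqp.one_lt.le fun p hp => (mem_Icc.1 (mem_filter.1 hp).1).1
        _ = _ := by ring
    calc ∑ n ∈ Icc 1 N \ G, (1 : ℝ) / n
        ≤ ∑ n ∈ ((Icc 1 N).filter fun n => smo q (n + h₀) = 1) ∪
          Q.biUnion (fun p => H.biUnion fun h => (Icc 1 N).filter fun n => p ^ 2 ∣ n + h),
          (1 : ℝ) / n := Finset.sum_le_sum_of_subset_of_nonneg hcov fun n _ _ => hnn n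
      _ ≤ C₁ * (1 + Real.log q) + 2 * C₂ * (Real.log N / q) :=
          (sum_union_le' _ _ _ hnn).trans (add_le_add h1 h2)
      _ ≤ _ := by
          have hA0 : (0 : ℝ) ≤ A := Nat.cast_nonneg _
          have h3 : 0 ≤ 1 + Real.log q := by linarith
          nlinarith [mul_nonneg hC₂0 h3, mul_nonneg hC₁.le hdom, mul_nonneg hA0 hdom,
            mul_nonneg hA0 h3]
  · -- small primes: the trivial bound
    rw [not_lt] at hAq
    have h1 : ∑ n ∈ Icc 1 N \ G, (1 : ℝ) / n ≤ 2 * Real.log N := by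
      calc ∑ n ∈ Icc 1 N \ G, (1 : ℝ) / n ≤ ∑ n ∈ Icc 1 N with 1 ∣ n + 0, (1 : ℝ) / n := by
            apply Finset.sum_le_sum_of_subset_of_nonneg
            · intro n hn
              rw [mem_filter]
              exact ⟨(Finset.mem_sdiff.1 hn).1, one_dvd _⟩
            · intro _ _ _
              positivity
        _ ≤ _ := sum_dvd_le hN 0 1 le_rfl
        _ = _ := by
            push_cast
            ring
    have hAq' : (q : ℝ) ≤ A := by exact_mod_cast hAq
    have h2 : 2 * Real.log N ≤ 2 * A * (Real.log N / q) := by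
      rw [← mul_div_assoc, le_div_iff₀ hq0]
      nlinarith
    have h3 : 0 ≤ 1 + Real.log q := by linarith
    have hA0 : (0 : ℝ) ≤ A := Nat.cast_nonneg _
    nlinarith [mul_nonneg hC₂0 h3, mul_nonneg hC₁.le hdom, mul_nonneg hC₂0 hdom,
      mul_nonneg hA0 h3, mul_nonneg hC₁.le h3]

end Pool.Agent.H92.EX
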