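import Pool.Agent.H92.EX.XDEC

/-!
# MP_34b97f_an: the coefficients of the signs: bound and dependence
-/

open MeasureTheory ProbabilityTheory Filter Topology Finset

namespace Pool.Agent.H92.EX

open Pool.Agent.H89.MT

theorem pf_YB : T_YB := by
  classical
  intro H
  refine ⟨∑ h ∈ H, ((h : ℝ) + 1) * (2 + h) + 1, ?_, fun N j x hN => ?_⟩
  · have : 0 ≤ ∑ h ∈ H, ((h : ℝ) + 1) * (2 + h) := Finset.sum_nonneg fun h _ => by positivity
    linarith
  have hlN := log_ge_one hN
  have hlN0 : 0 < Real.log N := by linarith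
  set p := Nat.nth Nat.Prime j with hp
  have hpp : p.Prime := nth_prime j
  have hp0 : (0 : ℝ) < p := by exact_mod_cast hpp.pos
  have hnn : ∀ n : ℕ, 0 ≤ (1 : ℝ) / n := fun n => by positivity
  unfold Y
  rw [abs_div, abs_of_pos hlN0, div_le_iff₀ hlN0]
  calc |∑ n ∈ (Icc 1 N).filter (fun n => top (PP H n) = Nat.nth Nat.Prime j ∧
        ¬ (Nat.nth Nat.Prime j) ^ 2 ∣ PP H n), (cm x (PP H n / Nat.nth Nat.Prime j) : ℝ) / n|
      ≤ ∑ n ∈ (Icc 1 N).filter (fun n => top (PP H n) = Nat.nth Nat.Prime j ∧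
        ¬ (Nat.nth Nat.Prime j) ^ 2 ∣ PP H n), (1 : ℝ) / n := by
        refine (Finset.abs_sum_le_sum_abs _ _).trans (Finset.sum_le_sum fun n _ => ?_)
        rw [abs_div, Nat.abs_cast, abs_cm']
    _ ≤ ∑ n ∈ H.biUnion (fun h => (Icc 1 N).filter fun n => p ∣ n + h), (1 : ℝ) / n := by
        apply Finset.sum_le_sum_of_subset_of_nonneg
        · intro n hn
          obtain ⟨hn1, hn2, -⟩ := mem_filter.1 hn
          have htm := top_mem' (m := PP H n) (by rw [hn2]; exact hpp.pos)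
          rw [Nat.mem_primeFactors, hn2] at htm
          obtain ⟨h, hh, hd⟩ := prime_dvd_PP hpp htm.2.1
          exact Finset.mem_biUnion.2 ⟨h, hh, mem_filter.2 ⟨hn1, hd⟩⟩
        · intro n _ _
          exact hnn n
    _ ≤ ∑ h ∈ H, ∑ n ∈ (Icc 1 N).filter (fun n => p ∣ n + h), (1 : ℝ) / n :=
        sum_biUnion_le _ _ _ hnn
    _ ≤ ∑ h ∈ H, ((h : ℝ) + 1) * (2 + h) / p * Real.log N :=
        Finset.sum_le_sum fun h _ => sum_dvd_le hN h p hpp.one_lt.le
    _ = (∑ h ∈ H, ((h : ℝ) + 1) * (2 + h)) / p * Real.log N := by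
        rw [← Finset.sum_mul, ← Finset.sum_div]
    _ ≤ _ := by
        apply mul_le_mul_of_nonneg_right _ hlN0.le
        apply div_le_div_of_nonneg_right _ hp0.le
        linarith

theorem par_congr {x y : ℕ → Bool} {n j : ℕ} (h : ∀ i < j, x i = y i)
    (hn : ∀ p ∈ n.primeFactors, p < Nat.nth Nat.Prime j) : par x n = par y n := by
  unfold par
  refine Finset.sum_congr rfl fun p hp => ?_
  have hpp := (Nat.mem_primeFactors.1 hp).1
  have h1 : Nat.count Nat.Prime p < j := by
    have h2 := Nat.count_strict_mono hpp (hn p hp)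
    rwa [Nat.count_nth_of_infinite Nat.infinite_setOfPred_prime] at h2
  rw [h _ h1]

theorem pf_DEP : T_DEP := by
  classical
  intro N H j x y h
  unfold Y
  congr 1
  refine Finset.sum_congr rfl fun n hn => ?_
  obtain ⟨hn1, hn2, hn3⟩ := mem_filter.1 hn
  have hn0 : 0 < n := (mem_Icc.1 hn1).1
  have hP := PP_pos H hn0
  set p := Nat.nth Nat.Prime j with hp
  have hpp : p.Prime := nth_prime j
  have htm := top_mem' (m := PP H n) (by rw [hn2]; exact hpp.pos)
  rw [Nat.mem_primeFactors, hn2] at htm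
  obtain ⟨m, hm⟩ := htm.2.1
  have hdiv : PP H n / p = m := by
    rw [hm]
    exact Nat.mul_div_cancel_left _ hpp.pos
  rw [hdiv]
  have key : ∀ r ∈ m.primeFactors, r < p := by
    intro r hr
    have hr' := Nat.mem_primeFactors.1 hr
    have h1 : r ≤ p := by
      rw [← hn2]
      refine le_top (Nat.mem_primeFactors.2 ⟨hr'.1, ?_, hP.ne'⟩)
      rw [hm]
      exact hr'.2.1.trans (dvd_mul_left _ _)
    rcases h1.lt_or_eq with h2 | h2
    · exact h2
    · exfalso
      refine hn3 ?_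
      rw [hm, pow_two]
      exact mul_dvd_mul_left p (h2 ▸ hr'.2.1)
  have e : (cm x m : ℝ) = cm y m := by
    rw [cm_eq, cm_eq, par_congr h key]
  rw [e]

end Pool.Agent.H92.EX
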